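import Mathlib

/-!
# Numerical parameters of the hitting sets for read-once oblivious branching programs
-/

set_option autoImplicit false

namespace Pool.Agent.V8H37.Roabp2

/-- the entries of the tables are smaller than `side k w` -/
def side (k w : ℕ) : ℕ := 16 * k * w ^ 2

/-- bound for the number of parameters -/
def npar (k w : ℕ) : ℕ := (k + 1) * (w + 1) ^ 2

/-- number of points of the first sample -/
def rounds (k w : ℕ) : ℕ :=
  npar k w * Nat.clog 2 (side k w ^ k * (2 * k * side k w + 2) + 1) + 1

/-- number of points of the tables -/
def pts (k w : ℕ) : ℕ :=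
  npar k w * Nat.clog 2 (rounds k w * (2 * k * side k w + 2) + 1) + 1

end Pool.Agent.V8H37.Roabp2
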