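import Mathlib

set_option autoImplicit false

namespace Pool.Agent.V8H37.Roabp

open Finset

/-- coefficient of `z^e` in `u · B_0(z_0) ⋯ B_{k-1}(z_{k-1}) · v` -/
noncomputable def co {k w : ℕ} (B : Fin k → Matrix (Fin w) (Fin w) (Polynomial ℂ))
    (u v : Fin w → ℂ) (e : Fin k → ℕ) : ℂ :=
  ∑ a, ∑ b, u a * (List.ofFn (fun j => (B j).map (fun q => q.coeff (e j)))).prod a b * v b

/-- value of `u · B_0(z_0) ⋯ B_{k-1}(z_{k-1}) · v` in a commutative algebra -/
noncomputable def ev {k w : ℕ} (B : Fin k → Matrix (Fin w) (Fin w) (Polynomial ℂ))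
    (u v : Fin w → ℂ) {A : Type} [CommRing A] [Algebra ℂ A] (z : Fin k → A) : A :=
  ∑ a, ∑ b, algebraMap ℂ A (u a) *
    (List.ofFn (fun j => (B j).map (Polynomial.aeval (z j)))).prod a b * algebraMap ℂ A (v b)

/-- the part of degree `s` -/
noncomputable def ps {k w : ℕ} (B : Fin k → Matrix (Fin w) (Fin w) (Polynomial ℂ))
    (u v : Fin w → ℂ) (s : ℕ) {A : Type} [CommRing A] [Algebra ℂ A] (z : Fin k → A) : A :=
  ∑ e ∈ Finset.piAntidiag (univ : Finset (Fin k)) s, algebraMap ℂ A (co B u v e) * ∏ j, z j ^ e j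

/-- noncommutative expansion over finite sets of exponents -/
theorem expand_gen {k w : ℕ} (E : Fin k → Finset ℕ)
    (F : Fin k → ℕ → Matrix (Fin w) (Fin w) ℂ) (u v : Fin w → ℂ)
    {A : Type} [CommRing A] [Algebra ℂ A] (z : Fin k → A) :
    (∑ a, ∑ b, algebraMap ℂ A (u a) *
      (List.ofFn (fun j => ∑ e ∈ E j, (z j) ^ e • (F j e).map (algebraMap ℂ A))).prod a b *
        algebraMap ℂ A (v b)) =
    ∑ e ∈ Fintype.piFinset E, algebraMap ℂ A
      (∑ a, ∑ b, u a * (List.ofFn (fun j => F j (e j))).prod a b * v b) * ∏ j, z j ^ e j := by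
  classical
  have h1 : (List.ofFn (fun j => ∑ e ∈ E j, (z j) ^ e • (F j e).map (algebraMap ℂ A))).prod =
      ∑ e ∈ Fintype.piFinset E, (∏ j, z j ^ e j) •
        ((List.ofFn (fun j => F j (e j))).prod).map (algebraMap ℂ A) := by
    have h2 := (MultilinearMap.mkPiAlgebraFin A k (Matrix (Fin w) (Fin w) A)).map_sum_finset
      (fun j e => (z j) ^ e • (F j e).map (algebraMap ℂ A)) E
    simp only [MultilinearMap.mkPiAlgebraFin_apply] at h2
    rw [h2]
    refine sum_congr rfl fun e _ => ?_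
    have h3 := (MultilinearMap.mkPiAlgebraFin A k (Matrix (Fin w) (Fin w) A)).map_smul_univ
      (fun j => (z j) ^ (e j)) (fun j => (F j (e j)).map (algebraMap ℂ A))
    simp only [MultilinearMap.mkPiAlgebraFin_apply] at h3
    rw [h3]
    congr 1
    have h4 := map_list_prod ((algebraMap ℂ A).mapMatrix (m := Fin w))
      (List.ofFn (fun j => F j (e j)))
    rw [List.map_ofFn] at h4
    simp only [RingHom.mapMatrix_apply] at h4
    rw [h4]
    rfl
  rw [h1]
  have h5 : ∀ a b : Fin w, algebraMap ℂ A (u a) * (∑ e ∈ Fintype.piFinset E, (∏ j, z j ^ e j) •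
        ((List.ofFn (fun j => F j (e j))).prod).map (algebraMap ℂ A)) a b * algebraMap ℂ A (v b) =
      ∑ e ∈ Fintype.piFinset E, algebraMap ℂ A
        (u a * (List.ofFn (fun j => F j (e j))).prod a b * v b) * ∏ j, z j ^ e j := by
    intro a b
    rw [Matrix.sum_apply, mul_sum, sum_mul]
    refine sum_congr rfl fun e _ => ?_
    rw [Matrix.smul_apply, Matrix.map_apply, smul_eq_mul, map_mul, map_mul]
    ring
  calc _ = ∑ a, ∑ b, ∑ e ∈ Fintype.piFinset E, algebraMap ℂ A
        (u a * (List.ofFn (fun j => F j (e j))).prod a b * v b) * ∏ j, z j ^ e j :=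
        sum_congr rfl fun a _ => sum_congr rfl fun b _ => h5 a b
    _ = ∑ a, ∑ e ∈ Fintype.piFinset E, ∑ b, algebraMap ℂ A
        (u a * (List.ofFn (fun j => F j (e j))).prod a b * v b) * ∏ j, z j ^ e j :=
        sum_congr rfl fun a _ => sum_comm
    _ = ∑ e ∈ Fintype.piFinset E, ∑ a, ∑ b, algebraMap ℂ A
        (u a * (List.ofFn (fun j => F j (e j))).prod a b * v b) * ∏ j, z j ^ e j := sum_comm
    _ = _ := by
        refine sum_congr rfl fun e _ => ?_
        rw [map_sum, sum_mul]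
        refine sum_congr rfl fun a _ => ?_
        rw [map_sum, sum_mul]

/-- expansion of the value over a large box -/
theorem ev_eq_sum {k w : ℕ} (B : Fin k → Matrix (Fin w) (Fin w) (Polynomial ℂ))
    (u v : Fin w → ℂ) {A : Type} [CommRing A] [Algebra ℂ A] (z : Fin k → A) (δ : ℕ)
    (hδ : ∀ j a b, (B j a b).natDegree < δ) :
    ev B u v z = ∑ e ∈ Fintype.piFinset (fun _ : Fin k => range δ),
      algebraMap ℂ A (co B u v e) * ∏ j, z j ^ e j := by
  have h := expand_gen (fun _ : Fin k => range δ) (fun j e => (B j).map (fun q => q.coeff e)) u v z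
  have hB : (fun j => (B j).map (Polynomial.aeval (z j))) = fun j => ∑ e ∈ range δ,
      (z j) ^ e • ((B j).map (fun q => q.coeff e)).map (algebraMap ℂ A) := by
    funext j
    ext a' b'
    rw [Matrix.map_apply, Matrix.sum_apply, Polynomial.aeval_eq_sum_range' (hδ j a' b')]
    refine sum_congr rfl fun e _ => ?_
    rw [Matrix.smul_apply, Matrix.map_apply, Matrix.map_apply, smul_eq_mul, Algebra.smul_def,
      mul_comm]
  unfold ev co
  rw [← h, hB]

/-- a common bound for the degrees -/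
theorem exists_bound {k w : ℕ} (B : Fin k → Matrix (Fin w) (Fin w) (Polynomial ℂ)) :
    ∃ δ, ∀ j a b, (B j a b).natDegree < δ := by
  refine ⟨(∑ j, ∑ a, ∑ b, (B j a b).natDegree) + 1, fun j a b => ?_⟩
  have h1 : (B j a b).natDegree ≤ ∑ b, (B j a b).natDegree :=
    single_le_sum (f := fun b => (B j a b).natDegree) (fun _ _ => Nat.zero_le _) (mem_univ b)
  have h2 : ∑ b, (B j a b).natDegree ≤ ∑ a, ∑ b, (B j a b).natDegree :=
    single_le_sum (f := fun a => ∑ b, (B j a b).natDegree) (fun _ _ => Nat.zero_le _) (mem_univ a)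
  have h3 : ∑ a, ∑ b, (B j a b).natDegree ≤ ∑ j, ∑ a, ∑ b, (B j a b).natDegree :=
    single_le_sum (f := fun j => ∑ a, ∑ b, (B j a b).natDegree) (fun _ _ => Nat.zero_le _)
      (mem_univ j)
  omega

/-- the lowest part of a sum along `D * h` -/
theorem lowest_part {k : ℕ} (Φ : (Fin k → ℕ) → ℂ) (E : Finset (Fin k → ℕ)) (s : ℕ)
    (hs : ∀ e ∈ E, Φ e ≠ 0 → s ≤ ∑ j, e j)
    (hE : ∀ e, ∑ j, e j = s → Φ e ≠ 0 → e ∈ E)
    {A : Type} [CommRing A] [Algebra ℂ A] (D : A) (h : Fin k → A) :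
    ∃ r : A, ∑ e ∈ E, algebraMap ℂ A (Φ e) * ∏ j, (D * h j) ^ e j =
      D ^ s * ((∑ e ∈ Finset.piAntidiag (univ : Finset (Fin k)) s,
        algebraMap ℂ A (Φ e) * ∏ j, h j ^ e j) + D * r) := by
  classical
  have hterm : ∀ e ∈ E, ∃ r : A, algebraMap ℂ A (Φ e) * ∏ j, (D * h j) ^ e j =
      D ^ s * ((if ∑ j, e j = s then algebraMap ℂ A (Φ e) * ∏ j, h j ^ e j else 0) + D * r) := by
    intro e he
    by_cases h0 : Φ e = 0
    · exact ⟨0, by simp [h0]⟩
    have h1 := hs e he h0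
    have h2 : ∏ j, (D * h j) ^ e j = D ^ (∑ j, e j) * ∏ j, h j ^ e j := by
      simp_rw [mul_pow]
      rw [prod_mul_distrib, prod_pow_eq_pow_sum]
    by_cases h3 : ∑ j, e j = s
    · refine ⟨0, ?_⟩
      rw [h2, h3]; simp; ring
    · refine ⟨D ^ (∑ j, e j - s - 1) * (algebraMap ℂ A (Φ e) * ∏ j, h j ^ e j), ?_⟩
      rw [h2, if_neg h3]
      have h4 : ∑ j, e j = s + 1 + (∑ j, e j - s - 1) := by omega
      conv_lhs => rw [h4]
      rw [pow_add, pow_add]
      ring
  choose! r hr using hterm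
  refine ⟨∑ e ∈ E, r e, ?_⟩
  rw [sum_congr rfl hr, ← mul_sum, sum_add_distrib, ← mul_sum]
  congr 2
  rw [← sum_filter]
  refine sum_subset_zero_on_sdiff ?_ ?_ (fun _ _ => rfl)
  · intro e he
    rw [mem_filter] at he
    rw [mem_piAntidiag]
    exact ⟨he.2, fun i _ => mem_univ i⟩
  · intro e he
    rw [mem_sdiff, mem_filter, mem_piAntidiag] at he
    have : Φ e = 0 := by
      by_contra h0
      exact he.2 ⟨hE e he.1.1 h0, he.1.1⟩
    rw [this]; simp

end Pool.Agent.V8H37.Roabp
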