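import Mathlib

set_option autoImplicit false

namespace Pool.Agent.V8H37.Roabp

open Finset MvPolynomial

section count

variable {Λ ι : Type} [Fintype Λ] [DecidableEq Λ] [Fintype ι] [DecidableEq ι]

/-- the product over a pattern, made homogeneous with an extra variable -/
noncomputable def Qp (P : Λ → MvPolynomial ι ℂ) (S : Finset Λ) : MvPolynomial (Option ι) ℂ :=
  (∏ p ∈ S, rename some (P p)) * X none ^ (Fintype.card Λ - S.card)

theorem totalDegree_Qp (D : ℕ) (hD : 1 ≤ D) (P : Λ → MvPolynomial ι ℂ)
    (hP : ∀ p, (P p).totalDegree ≤ D) (S : Finset Λ) :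
    (Qp P S).totalDegree ≤ Fintype.card Λ * D := by
  have hS : S.card ≤ Fintype.card Λ := card_le_univ S
  have h1 : (∏ p ∈ S, rename (some : ι → Option ι) (P p)).totalDegree ≤ S.card * D := by
    refine (totalDegree_finset_prod _ _).trans ?_
    calc ∑ p ∈ S, (rename (some : ι → Option ι) (P p)).totalDegree ≤ ∑ _p ∈ S, D :=
          sum_le_sum fun p _ => (totalDegree_rename_le _ _).trans (hP p)
      _ = S.card * D := by simp
  have h2 : ((X none : MvPolynomial (Option ι) ℂ) ^ (Fintype.card Λ - S.card)).totalDegree ≤
      (Fintype.card Λ - S.card) * D := by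
    refine (totalDegree_pow _ _).trans ?_
    rw [totalDegree_X]
    exact Nat.mul_le_mul_left _ hD
  calc (Qp P S).totalDegree ≤ S.card * D + (Fintype.card Λ - S.card) * D :=
        (totalDegree_mul _ _).trans (add_le_add h1 h2)
    _ = Fintype.card Λ * D := by
        rw [← add_mul]; congr 1; omega

/-- number of zero patterns of the leading parts -/
theorem pattern_count
    (D : ℕ) (hD : 1 ≤ D) (P : Λ → MvPolynomial ι ℂ) (hP : ∀ p, (P p).totalDegree ≤ D)
    (Pat : Finset (Finset Λ))
    (hPat : ∀ S ∈ Pat, ∃ (ev : ι → Polynomial ℂ) (s : ℕ) (ψ : Λ → ℂ),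
      (∀ p, ∃ r : Polynomial ℂ, MvPolynomial.aeval ev (P p) =
        Polynomial.X ^ s * (Polynomial.C (ψ p) + Polynomial.X * r)) ∧
      ∀ p, p ∈ S ↔ ψ p ≠ 0) :
    Pat.card ≤ (Fintype.card Λ * D + 1) ^ (Fintype.card ι + 1) := by
  classical
  set B := Fintype.card Λ * D with hB
  let cv : MvPolynomial (Option ι) ℂ → ((Option ι → Fin (B + 1)) → ℂ) := fun Q e =>
    coeff (Finsupp.equivFunOnFinite.symm (fun i => (e i : ℕ))) Q
  have hli : LinearIndependent ℂ (fun S : Pat => cv (Qp P S.1)) := by
    rw [Fintype.linearIndependent_iff]
    intro g hg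
    -- the polynomial identity
    have hpoly : ∑ S : Pat, g S • Qp P S.1 = 0 := by
      ext e
      rw [coeff_zero, coeff_sum]
      by_cases he : ∀ i, e i ≤ B
      · have h := congrFun hg (fun i => (⟨e i, by have := he i; omega⟩ : Fin (B + 1)))
        rw [Finset.sum_apply] at h
        simp only [Pi.smul_apply, Pi.zero_apply, cv] at h
        have hee : (Finsupp.equivFunOnFinite.symm (fun i => e i) : Option ι →₀ ℕ) = e := by
          ext i; simp
        simp only [hee] at h
        simpa [coeff_smul] using h
      · push Not at he
        obtain ⟨i, hi⟩ := he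
        refine sum_eq_zero fun S _ => ?_
        rw [coeff_smul]
        have : coeff e (Qp P S.1) = 0 := by
          apply coeff_eq_zero_of_totalDegree_lt
          refine lt_of_le_of_lt (totalDegree_Qp D hD P hP S.1) ?_
          refine lt_of_lt_of_le hi ?_
          by_cases hmem : i ∈ e.support
          · exact Finset.single_le_sum (f := fun i => e i) (fun _ _ => Nat.zero_le _) hmem
          · have : e i = 0 := by simpa using hmem
            omega
        rw [this, smul_zero]
    -- evaluation at the witnesses
    have key : ∀ T : Pat, ∃ ψ : Λ → ℂ, (∀ p, p ∈ T.1 ↔ ψ p ≠ 0) ∧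
        ∑ S : Pat, g S * ∏ p ∈ S.1, ψ p = 0 := by
      intro T
      obtain ⟨ev, s, ψ, h1, h2⟩ := hPat T.1 T.2
      refine ⟨ψ, h2, ?_⟩
      choose r hr using h1
      let ev' : Option ι → Polynomial ℂ := fun o => o.elim (Polynomial.X ^ s) ev
      have hQ : ∀ S : Finset Λ, MvPolynomial.aeval ev' (Qp P S) =
          Polynomial.X ^ (s * Fintype.card Λ) *
            ∏ p ∈ S, (Polynomial.C (ψ p) + Polynomial.X * r p) := by
        intro S
        have hS : S.card ≤ Fintype.card Λ := card_le_univ S
        unfold Qp
        rw [map_mul, map_prod, map_pow, aeval_X]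
        have : ∀ p ∈ S, (MvPolynomial.aeval ev') (rename some (P p)) =
            Polynomial.X ^ s * (Polynomial.C (ψ p) + Polynomial.X * r p) := by
          intro p _
          rw [aeval_rename, ← hr p]
          rfl
        rw [prod_congr rfl this, prod_mul_distrib, prod_const]
        have hx : ev' none = Polynomial.X ^ s := rfl
        rw [hx, ← pow_mul, ← pow_mul]
        have : s * Fintype.card Λ = s * S.card + s * (Fintype.card Λ - S.card) := by
          rw [← mul_add]; congr 1; omega
        rw [this, pow_add]
        ring
      have h3 := congrArg (MvPolynomial.aeval ev') hpoly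
      rw [map_sum, map_zero] at h3
      simp only [map_smul, hQ] at h3
      have h4 : Polynomial.X ^ (s * Fintype.card Λ) *
          ∑ S : Pat, g S • ∏ p ∈ S.1, (Polynomial.C (ψ p) + Polynomial.X * r p) = 0 := by
        rw [← h3, mul_sum]
        refine sum_congr rfl fun S _ => ?_
        rw [mul_smul_comm]
      have h5 : ∑ S : Pat, g S • ∏ p ∈ S.1, (Polynomial.C (ψ p) + Polynomial.X * r p) = 0 := by
        rcases mul_eq_zero.1 h4 with h | h
        · exact absurd h (pow_ne_zero _ Polynomial.X_ne_zero)
        · exact h
      have h6 := congrArg (Polynomial.eval 0) h5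
      rw [Polynomial.eval_finset_sum, Polynomial.eval_zero] at h6
      rw [← h6]
      refine sum_congr rfl fun S _ => ?_
      rw [Polynomial.eval_smul, Polynomial.eval_prod, smul_eq_mul]
      congr 1
      refine prod_congr rfl fun p _ => ?_
      simp
    -- triangularity
    have main : ∀ c : ℕ, ∀ T : Pat, T.1.card = c → g T = 0 := by
      intro c
      induction c using Nat.strong_induction_on with
      | _ c ih =>
        intro T hT
        obtain ⟨ψ, h1, h2⟩ := key T
        rw [Fintype.sum_eq_single T] at h2
        · rcases mul_eq_zero.1 h2 with h | h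
          · exact h
          · exfalso
            obtain ⟨p, hp, hp0⟩ := prod_eq_zero_iff.1 h
            exact (h1 p).1 hp hp0
        · intro S hST
          by_cases hsub : S.1 ⊆ T.1
          · have hlt : S.1.card < T.1.card := by
              refine card_lt_card (lt_of_le_of_ne hsub ?_)
              intro h
              exact hST (Subtype.ext h)
            rw [ih S.1.card (by omega) S rfl, zero_mul]
          · obtain ⟨p, hp, hpT⟩ := not_subset.1 hsub
            have : ψ p = 0 := by
              by_contra h
              exact hpT ((h1 p).2 h)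
            rw [prod_eq_zero hp this, mul_zero]
    intro S
    exact main _ S rfl
  have hcard := hli.fintype_card_le_finrank
  rw [Module.finrank_fintype_fun_eq_card, Fintype.card_coe, Fintype.card_fun, Fintype.card_option,
    Fintype.card_fin] at hcard
  exact hcard

end count

end Pool.Agent.V8H37.Roabp
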