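import Pool.Agent.V8H37.Roabp.Params
import Pool.Agent.V8H37.Roabp.Defs
import Pool.Agent.V8H61.RB.Table
import Pool.Agent.V8H61.RB.Dens

set_option autoImplicit false

namespace Pool.Agent.V8H37.Roabp

open Finset

theorem card_par (k w : ℕ) : Fintype.card (Par k w (w ^ 2)) + 1 = npar k w := by
  unfold npar Par
  simp only [Fintype.card_sum, Fintype.card_prod, Fintype.card_fin]
  ring

theorem lt_two_pow_of (N n c : ℕ) (h : c ≤ (N + 1) ^ n) :
    c < 2 ^ (n * Nat.clog 2 (N + 1) + 1) := by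
  calc c ≤ (N + 1) ^ n := h
    _ ≤ (2 ^ Nat.clog 2 (N + 1)) ^ n := Nat.pow_le_pow_left (Nat.le_pow_clog Nat.one_lt_two _) _
    _ = 2 ^ (n * Nat.clog 2 (N + 1)) := by rw [← pow_mul, mul_comm]
    _ < 2 ^ (n * Nat.clog 2 (N + 1) + 1) := Nat.pow_lt_pow_right Nat.one_lt_two (Nat.lt_succ_self _)

/-- the coefficients of the part of degree `s` -/
noncomputable def psi {k w : ℕ} (B : Fin k → Matrix (Fin w) (Fin w) (Polynomial ℂ))
    (u v : Fin w → ℂ) (s : ℕ) : (Fin k → ℕ) →₀ ℂ :=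
  Finsupp.onFinset (supp B u v s) (fun e => if ∑ j, e j = s then co B u v e else 0) (by
    intro e he
    rw [mem_supp]
    by_cases h : ∑ j, e j = s
    · rw [if_pos h] at he; exact ⟨h, he⟩
    · rw [if_neg h] at he; exact absurd rfl he)

theorem psi_apply {k w : ℕ} (B : Fin k → Matrix (Fin w) (Fin w) (Polynomial ℂ))
    (u v : Fin w → ℂ) (s : ℕ) (e : Fin k → ℕ) :
    psi B u v s e = if ∑ j, e j = s then co B u v e else 0 := rfl

theorem psi_support {k w : ℕ} (B : Fin k → Matrix (Fin w) (Fin w) (Polynomial ℂ))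
    (u v : Fin w → ℂ) (s : ℕ) : (psi B u v s).support = supp B u v s := by
  ext e
  rw [Finsupp.mem_support_iff, psi_apply, mem_supp]
  by_cases h : ∑ j, e j = s
  · rw [if_pos h]; simp [h]
  · rw [if_neg h]; simp [h]

theorem psi_sum {k w : ℕ} (B : Fin k → Matrix (Fin w) (Fin w) (Polynomial ℂ))
    (u v : Fin w → ℂ) (s : ℕ) (p : Fin k → ℕ) :
    (psi B u v s).sum (fun e c => c * ∏ j, (2 : ℂ) ^ (p j * e j)) =
      ps B u v s (fun j => (2 : ℂ) ^ p j) := by
  classical
  unfold ps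
  rw [Finsupp.sum, psi_support]
  unfold supp
  rw [sum_filter]
  refine sum_congr rfl fun e he => ?_
  rw [mem_piAntidiag] at he
  rw [psi_apply, if_pos he.1]
  by_cases h : co B u v e = 0
  · simp [h]
  · rw [if_pos h]
    simp only [pow_mul, Algebra.algebraMap_self, RingHom.id_apply]

/-- existence of a good table -/
theorem exists_good (k w : ℕ) (hk : 1 ≤ k) (hw : 1 ≤ w) :
    ∃ T : Fin (pts k w) → Fin k → Fin (side k w), Good w (fun i j => ((T i j : Fin _) : ℕ)) := by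
  classical
  set Θ := side k w with hΘ
  have hΘ0 : 0 < Θ := by
    rw [hΘ, side]; positivity
  have : NeZero Θ := ⟨by omega⟩
  let pat : (Fin k → Matrix (Fin w) (Fin w) (Polynomial ℂ)) → (Fin w → ℂ) → (Fin w → ℂ) → ℕ →
      Finset (Fin k → Fin Θ) := fun B u v s =>
    univ.filter (fun p => ps B u v s (fun j => (2 : ℂ) ^ ((p j : Fin Θ) : ℕ)) ≠ 0)
  let Pat : Finset (Finset (Fin k → Fin Θ)) := univ.filter (fun S => ∃ B u v s,
    (∀ e, co B u v e ≠ 0 → s ≤ ∑ j, e j) ∧ (∃ e, ∑ j, e j = s ∧ co B u v e ≠ 0) ∧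
      S = pat B u v s)
  have hcard : Fintype.card (Fin k → Fin Θ) = Θ ^ k := by simp
  have hD : 1 ≤ k * Θ + 2 := by omega
  have h1 : ∀ S ∈ Pat, 16 * (Sᶜ).card ≤ Fintype.card (Fin k → Fin Θ) := by
    intro S hS
    obtain ⟨B, u, v, s, hs1, ⟨e, he1, he2⟩, rfl⟩ := (mem_filter.1 hS).2
    have hne : psi B u v s ≠ 0 := by
      intro h
      have := DFunLike.congr_fun h e
      rw [psi_apply, if_pos he1] at this
      exact he2 this
    have hd := Pool.Agent.V8H61.RB.density (Θ := Θ) (psi B u v s) hne (R := w ^ 2) (by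
      intro j
      rw [psi_support]
      exact card_exps B u v s hs1 j)
    have hc : (pat B u v s)ᶜ = univ.filter (fun p : Fin k → Fin Θ =>
      (psi B u v s).sum (fun e c => c * ∏ j, (2 : ℂ) ^ (((p j : Fin Θ) : ℕ) * e j)) = 0) := by
      ext p
      rw [mem_compl, mem_filter, mem_filter, psi_sum B u v s (fun j => ((p j : Fin Θ) : ℕ))]
      simp
    rw [hc, hcard]
    have hkw : 0 < k * w ^ 2 := by positivity
    have h2 : Θ = 16 * (k * w ^ 2) := by rw [hΘ, side]; ring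
    set Z := (univ.filter (fun p : Fin k → Fin Θ =>
      (psi B u v s).sum (fun e c => c * ∏ j, (2 : ℂ) ^ (((p j : Fin Θ) : ℕ) * e j)) = 0)).card
    have h3 : (16 * Z) * (k * w ^ 2) ≤ Θ ^ k * (k * w ^ 2) := by
      calc (16 * Z) * (k * w ^ 2) = Z * (16 * (k * w ^ 2)) := by ring
        _ = Z * Θ := by rw [← h2]
        _ ≤ k * w ^ 2 * Θ ^ k := hd
        _ = Θ ^ k * (k * w ^ 2) := by ring
    exact Nat.le_of_mul_le_mul_right h3 hkw
  have h2 : Pat.card < 2 ^ rounds k w := by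
    have h := pattern_count (k * Θ + 2) hD
      (fun p : Fin k → Fin Θ => PP k w (w ^ 2) (fun j => ((p j : Fin Θ) : ℕ)))
      (fun p => totalDegree_PP k w (w ^ 2) Θ _ (fun j => (p j).2)) Pat (by
        intro S hS
        obtain ⟨B, u, v, s, hs1, _, rfl⟩ := (mem_filter.1 hS).2
        obtain ⟨ev, hev⟩ := param_eval B u v s hs1
        refine ⟨ev, s, fun p => ps B u v s (fun j => (2 : ℂ) ^ ((p j : Fin Θ) : ℕ)),
          fun p => hev _, fun p => ?_⟩
        simp [pat])
    rw [card_par, hcard] at h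
    exact lt_two_pow_of _ _ _ h
  have h3 : ∀ X : Fin (rounds k w) → (Fin k → Fin Θ),
      (Pat.image (fun S => univ.filter (fun l => X l ∈ S))).card < 2 ^ pts k w := by
    intro X
    have h := pattern_count (k * Θ + 2) hD
      (fun l : Fin (rounds k w) => PP k w (w ^ 2) (fun j => ((X l j : Fin Θ) : ℕ)))
      (fun l => totalDegree_PP k w (w ^ 2) Θ _ (fun j => (X l j).2))
      (Pat.image (fun S => univ.filter (fun l => X l ∈ S))) (by
        intro S' hS'
        obtain ⟨S, hS, rfl⟩ := mem_image.1 hS'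
        obtain ⟨B, u, v, s, hs1, _, rfl⟩ := (mem_filter.1 hS).2
        obtain ⟨ev, hev⟩ := param_eval B u v s hs1
        refine ⟨ev, s, fun l => ps B u v s (fun j => (2 : ℂ) ^ ((X l j : Fin Θ) : ℕ)),
          fun l => hev _, fun l => ?_⟩
        simp [pat])
    rw [card_par, Fintype.card_fin] at h
    exact lt_two_pow_of _ _ _ h
  obtain ⟨T, hT⟩ := Pool.Agent.V8H61.RB.exists_table Pat h1 (rounds k w) (pts k w) h2 h3
  refine ⟨T, ?_⟩
  intro B u v s hs1 hs2
  obtain ⟨i, hi⟩ := hT (pat B u v s) (mem_filter.2 ⟨mem_univ _, B, u, v, s, hs1, hs2, rfl⟩)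
  exact ⟨i, (mem_filter.1 hi).2⟩

end Pool.Agent.V8H37.Roabp
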