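import Pool.Agent.V8H37.Roabp.Block

set_option autoImplicit false

namespace Pool.Agent.V8H37.Roabp

open Finset

theorem lin_bound {w : ℕ} (Δ : Finset ℕ) (x y : ℕ → Fin w → ℂ)
    (hd : ∀ d ∈ Δ, ∑ c, x d c * y d c ≠ 0)
    (ho : ∀ d ∈ Δ, ∀ d' ∈ Δ, d < d' → ∑ c, x d c * y d' c = 0) : Δ.card ≤ w := by
  classical
  have hli : LinearIndependent ℂ (fun d : Δ => y d.1) := by
    rw [Fintype.linearIndependent_iff]
    intro g hg
    have main : ∀ n : ℕ, ∀ d : Δ, d.1 = n → g d = 0 := by
      intro n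
      induction n using Nat.strong_induction_on with
      | _ n ih =>
        intro d hdn
        have h1 : ∑ c, x d.1 c * (∑ d' : Δ, g d' • y d'.1) c = 0 := by
          rw [hg]; simp
        simp only [Finset.sum_apply, Pi.smul_apply, smul_eq_mul, mul_sum] at h1
        rw [sum_comm] at h1
        have h2 : ∀ d' : Δ, d' ≠ d → ∑ c, x d.1 c * (g d' * y d'.1 c) = 0 := by
          intro d' hne
          rcases lt_trichotomy d'.1 d.1 with h | h | h
          · rw [ih d'.1 (by omega) d' rfl]; simp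
          · exact absurd (Subtype.ext h) hne
          · have h3 := ho d.1 d.2 d'.1 d'.2 h
            calc ∑ c, x d.1 c * (g d' * y d'.1 c) = g d' * ∑ c, x d.1 c * y d'.1 c := by
                  rw [mul_sum]; refine sum_congr rfl fun c _ => by ring
              _ = 0 := by rw [h3, mul_zero]
        rw [Fintype.sum_eq_single d h2] at h1
        have h4 : g d * ∑ c, x d.1 c * y d.1 c = 0 := by
          rw [← h1, mul_sum]; refine sum_congr rfl fun c _ => by ring
        rcases mul_eq_zero.1 h4 with h | h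
        · exact h
        · exact absurd h (hd d.1 d.2)
    intro d
    exact main _ d rfl
  have h := hli.fintype_card_le_finrank
  simpa using h

/-- first `j` exponents from `e`, the others from `e'` -/
def mix {k : ℕ} (j : ℕ) (e e' : Fin k → ℕ) : Fin k → ℕ := fun i => if (i : ℕ) < j then e i else e' i

theorem prod_mix {k w : ℕ} (F : Fin k → ℕ → Matrix (Fin w) (Fin w) ℂ) (j : ℕ)
    (e e' : Fin k → ℕ) :
    (List.ofFn (fun i => F i (mix j e e' i))).prod =
      ((List.ofFn (fun i => F i (e i))).take j).prod *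
        ((List.ofFn (fun i => F i (e' i))).drop j).prod := by
  rw [← List.prod_take_mul_prod_drop (List.ofFn (fun i => F i (mix j e e' i))) j]
  congr 2
  · apply List.ext_getElem
    · simp
    · intro i h1 h2
      have hi : i < j := by
        rw [List.length_take] at h1; omega
      simp [List.getElem_take, List.getElem_ofFn, mix, hi]
  · apply List.ext_getElem
    · simp
    · intro i h1 h2
      simp [List.getElem_drop, List.getElem_ofFn, mix]

theorem co_mix {k w : ℕ} (B : Fin k → Matrix (Fin w) (Fin w) (Polynomial ℂ))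
    (u v : Fin w → ℂ) (j : ℕ) (e e' : Fin k → ℕ) :
    co B u v (mix j e e') = ∑ c,
      (∑ a, u a * ((List.ofFn (fun i => (B i).map (fun q => q.coeff (e i)))).take j).prod a c) *
      (∑ b, ((List.ofFn (fun i => (B i).map (fun q => q.coeff (e' i)))).drop j).prod c b * v b) := by
  unfold co
  rw [prod_mix (fun i n => (B i).map (fun q => q.coeff n)) j e e']
  simp only [Matrix.mul_apply, sum_mul, mul_sum]
  rw [sum_congr rfl fun a _ => sum_comm]
  rw [sum_comm]
  refine sum_congr rfl fun c _ => ?_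
  rw [sum_comm]
  refine sum_congr rfl fun a _ => sum_congr rfl fun b _ => ?_
  ring

theorem sum_mix {k : ℕ} (j : ℕ) (e e' : Fin k → ℕ) :
    ∑ i, mix j e e' i = (∑ i : Fin k, if (i : ℕ) < j then e i else 0) +
      ∑ i : Fin k, if (i : ℕ) < j then 0 else e' i := by
  rw [← sum_add_distrib]
  refine sum_congr rfl fun i _ => ?_
  unfold mix
  split_ifs <;> simp

theorem sum_split {k : ℕ} (j : ℕ) (e : Fin k → ℕ) :
    ∑ i, e i = (∑ i : Fin k, if (i : ℕ) < j then e i else 0) +
      ∑ i : Fin k, if (i : ℕ) < j then 0 else e i := by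
  rw [← sum_add_distrib]
  refine sum_congr rfl fun i _ => ?_
  split_ifs <;> simp

/-- support of the part of degree `s` -/
noncomputable def supp {k w : ℕ} (B : Fin k → Matrix (Fin w) (Fin w) (Polynomial ℂ))
    (u v : Fin w → ℂ) (s : ℕ) : Finset (Fin k → ℕ) :=
  (Finset.piAntidiag (univ : Finset (Fin k)) s).filter (fun e => co B u v e ≠ 0)

theorem mem_supp {k w : ℕ} (B : Fin k → Matrix (Fin w) (Fin w) (Polynomial ℂ))
    (u v : Fin w → ℂ) (s : ℕ) (e : Fin k → ℕ) :
    e ∈ supp B u v s ↔ ∑ i, e i = s ∧ co B u v e ≠ 0 := by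
  unfold supp
  rw [mem_filter, mem_piAntidiag]
  constructor
  · rintro ⟨⟨h1, _⟩, h2⟩; exact ⟨h1, h2⟩
  · rintro ⟨h1, h2⟩; exact ⟨⟨h1, fun i _ => mem_univ i⟩, h2⟩

/-- degree in the first `j` variables -/
def pdeg {k : ℕ} (j : ℕ) (e : Fin k → ℕ) : ℕ := ∑ i : Fin k, if (i : ℕ) < j then e i else 0

theorem card_pdeg {k w : ℕ} (B : Fin k → Matrix (Fin w) (Fin w) (Polynomial ℂ))
    (u v : Fin w → ℂ) (s : ℕ) (hs : ∀ e, co B u v e ≠ 0 → s ≤ ∑ i, e i) (j : ℕ) :
    ((supp B u v s).image (pdeg j)).card ≤ w := by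
  classical
  set Δ := (supp B u v s).image (pdeg j) with hΔ
  have hch : ∀ d : ℕ, ∃ e : Fin k → ℕ, d ∈ Δ → e ∈ supp B u v s ∧ pdeg j e = d := by
    intro d
    by_cases h : d ∈ Δ
    · obtain ⟨e, he, hed⟩ := mem_image.1 h
      exact ⟨e, fun _ => ⟨he, hed⟩⟩
    · exact ⟨0, fun h' => absurd h' h⟩
  choose E hE using hch
  refine lin_bound Δ
    (fun d c => ∑ a, u a *
      ((List.ofFn (fun i => (B i).map (fun q => q.coeff (E d i)))).take j).prod a c)
    (fun d c => ∑ b,
      ((List.ofFn (fun i => (B i).map (fun q => q.coeff (E d i)))).drop j).prod c b * v b) ?_ ?_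
  · intro d hd
    rw [← co_mix B u v j (E d) (E d)]
    have : mix j (E d) (E d) = E d := by
      funext i; unfold mix; simp
    rw [this]
    exact ((mem_supp B u v s (E d)).1 (hE d hd).1).2
  · intro d hd d' hd' hlt
    rw [← co_mix B u v j (E d) (E d')]
    by_contra h0
    have h1 := hs _ h0
    have h2 := ((mem_supp B u v s (E d')).1 (hE d' hd').1).1
    have h3 := (hE d hd).2
    have h4 := (hE d' hd').2
    rw [sum_mix] at h1
    rw [sum_split j] at h2
    unfold pdeg at h3 h4
    omega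

theorem pdeg_succ {k : ℕ} (j : Fin k) (e : Fin k → ℕ) :
    pdeg ((j : ℕ) + 1) e = pdeg (j : ℕ) e + e j := by
  classical
  unfold pdeg
  rw [← add_sum_erase univ _ (mem_univ j)]
  conv_rhs => rw [← add_sum_erase univ _ (mem_univ j)]
  rw [if_pos (by omega), if_neg (by omega)]
  have : ∑ x ∈ univ.erase j, (if (x : ℕ) < (j : ℕ) + 1 then e x else 0) =
      ∑ x ∈ univ.erase j, (if (x : ℕ) < (j : ℕ) then e x else 0) := by
    refine sum_congr rfl fun x hx => ?_
    have hne : x ≠ j := ne_of_mem_erase hx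
    have : (x : ℕ) ≠ (j : ℕ) := fun h => hne (Fin.ext h)
    by_cases h : (x : ℕ) < (j : ℕ)
    · rw [if_pos (by omega), if_pos h]
    · rw [if_neg (by omega), if_neg h]
  rw [this]
  ring

theorem card_exps {k w : ℕ} (B : Fin k → Matrix (Fin w) (Fin w) (Polynomial ℂ))
    (u v : Fin w → ℂ) (s : ℕ) (hs : ∀ e, co B u v e ≠ 0 → s ≤ ∑ i, e i) (j : Fin k) :
    ((supp B u v s).image (fun e => e j)).card ≤ w ^ 2 := by
  classical
  have h1 : (supp B u v s).image (fun e => e j) ⊆
      (((supp B u v s).image (pdeg (j : ℕ))) ×ˢ ((supp B u v s).image (pdeg ((j : ℕ) + 1)))).image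
        (fun p => p.2 - p.1) := by
    intro n hn
    obtain ⟨e, he, rfl⟩ := mem_image.1 hn
    refine mem_image.2 ⟨(pdeg (j : ℕ) e, pdeg ((j : ℕ) + 1) e), ?_, ?_⟩
    · exact mem_product.2 ⟨mem_image_of_mem _ he, mem_image_of_mem _ he⟩
    · simp only [pdeg_succ]; omega
  calc ((supp B u v s).image (fun e => e j)).card
      ≤ (((supp B u v s).image (pdeg (j : ℕ))) ×ˢ
        ((supp B u v s).image (pdeg ((j : ℕ) + 1)))).card := (card_le_card h1).trans card_image_le
    _ = ((supp B u v s).image (pdeg (j : ℕ))).card *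
        ((supp B u v s).image (pdeg ((j : ℕ) + 1))).card := card_product _ _
    _ ≤ w * w := Nat.mul_le_mul (card_pdeg B u v s hs _) (card_pdeg B u v s hs _)
    _ = w ^ 2 := by ring

end Pool.Agent.V8H37.Roabp
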