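import Pool.Agent.V8H37.Roabp.Params
import Pool.Agent.V8H37.Roabp.Exist
import Pool.Agent.V8H37.Roabp.Defs2
import Pool.Agent.V8H61.RB.TT

set_option autoImplicit false

namespace Pool.Agent.V8H37.Roabp2

open Finset Pool.Agent.V8H37.Roabp

/-- the parameters: matrices, powers of two, boundary vectors -/
abbrev Par (k w : ℕ) : Type :=
  (Fin k × Fin w × Fin w) ⊕ ((Fin k × Fin w) ⊕ ((Fin k × Fin w) ⊕ (Fin w ⊕ Fin w)))

/-- the matrix of the layer `j` -/
noncomputable def layer (k w : ℕ) (p : Fin k → ℕ) (j : Fin k) :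
    Matrix (Fin w) (Fin w) (MvPolynomial (Par k w) ℂ) :=
  Matrix.of fun i i' : Fin w => MvPolynomial.X (Sum.inl (j, i, i')) *
    MvPolynomial.X (Sum.inr (Sum.inl (j, i'))) ^ p j *
      MvPolynomial.X (Sum.inr (Sum.inr (Sum.inl (j, i)))) ^ p j

/-- the polynomial in the parameters giving the value at the point `p` -/
noncomputable def PP (k w : ℕ) (p : Fin k → ℕ) : MvPolynomial (Par k w) ℂ :=
  ∑ a : Fin w, ∑ b : Fin w, MvPolynomial.X (Sum.inr (Sum.inr (Sum.inr (Sum.inl a)))) *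
    (List.ofFn (layer k w p)).prod a b *
    MvPolynomial.X (Sum.inr (Sum.inr (Sum.inr (Sum.inr b))))

theorem totalDegree_PP (k w Θ : ℕ) (p : Fin k → ℕ) (hp : ∀ j, p j < Θ) :
    (PP k w p).totalDegree ≤ 2 * k * Θ + 2 := by
  unfold PP
  apply MvPolynomial.totalDegree_finsetSum_le
  intro a _
  apply MvPolynomial.totalDegree_finsetSum_le
  intro b _
  have h1 := list_degree (Θ := 2 * Θ) (List.ofFn (layer k w p)) (by
    intro M hM a' b'
    rw [List.mem_ofFn] at hM
    obtain ⟨j, rfl⟩ := hM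
    unfold layer
    rw [Matrix.of_apply]
    refine (MvPolynomial.totalDegree_mul _ _).trans ?_
    have h2 := MvPolynomial.totalDegree_pow
      (MvPolynomial.X (Sum.inr (Sum.inr (Sum.inl (j, a')))) : MvPolynomial (Par k w) ℂ) (p j)
    have h3 := MvPolynomial.totalDegree_pow
      (MvPolynomial.X (Sum.inr (Sum.inl (j, b'))) : MvPolynomial (Par k w) ℂ) (p j)
    have h4 := MvPolynomial.totalDegree_mul
      (MvPolynomial.X (Sum.inl (j, a', b')) : MvPolynomial (Par k w) ℂ)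
      (MvPolynomial.X (Sum.inr (Sum.inl (j, b'))) ^ p j)
    rw [MvPolynomial.totalDegree_X, mul_one] at h2 h3
    rw [MvPolynomial.totalDegree_X] at h4
    have := hp j
    omega) a b
  rw [List.length_ofFn] at h1
  refine (MvPolynomial.totalDegree_mul _ _).trans ?_
  rw [MvPolynomial.totalDegree_X]
  have h3 := MvPolynomial.totalDegree_mul
    (MvPolynomial.X (Sum.inr (Sum.inr (Sum.inr (Sum.inl a)))) : MvPolynomial (Par k w) ℂ)
    ((List.ofFn (layer k w p)).prod a b)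
  rw [MvPolynomial.totalDegree_X] at h3
  have h4 : k * (2 * Θ) = 2 * k * Θ := by ring
  omega

/-- the parameters of a lowest part -/
noncomputable def evm {k w : ℕ} (deg : ℕ → Fin w → ℕ) (K : ℕ → Matrix (Fin w) (Fin w) ℂ)
    (u v : Fin w → ℂ) : Par k w → ℂ
  | Sum.inl (j, i, i') => K j i i'
  | Sum.inr (Sum.inl (j, i')) => (2 : ℂ) ^ deg (j + 1) i'
  | Sum.inr (Sum.inr (Sum.inl (j, i))) => ((2 : ℂ)⁻¹) ^ deg j i
  | Sum.inr (Sum.inr (Sum.inr (Sum.inl a))) => u a
  | Sum.inr (Sum.inr (Sum.inr (Sum.inr b))) => v b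

theorem param_eval {k w : ℕ} (hw : 1 ≤ w)
    (B : Fin k → Matrix (Fin w) (Fin w) (Polynomial ℂ))
    (u v : Fin w → ℂ) (s : ℕ) (hs : ∀ e, co B u v e ≠ 0 → s ≤ ∑ i, e i) :
    ∃ ev : Par k w → ℂ, ∀ p : Fin k → ℕ,
      MvPolynomial.eval ev (PP k w p) = ps B u v s (fun j => (2 : ℂ) ^ p j) := by
  obtain ⟨deg, K, u', v', h⟩ := Pool.Agent.V8H61.RB.tt hw B u v s hs
  refine ⟨evm deg K u' v', fun p => ?_⟩
  have h0 : ps B u v s (fun j => (2 : ℂ) ^ p j) =
      ∑ e ∈ Finset.piAntidiag (Finset.univ : Finset (Fin k)) s,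
          co B u v e * ∏ j, ((2 : ℂ) ^ p j) ^ e j := rfl
  rw [h0, h (fun j => (2 : ℂ) ^ p j) (fun j => pow_ne_zero _ two_ne_zero)]
  unfold PP
  rw [map_sum]
  refine sum_congr rfl fun a _ => ?_
  rw [map_sum]
  refine sum_congr rfl fun b _ => ?_
  rw [map_mul, map_mul, MvPolynomial.eval_X, MvPolynomial.eval_X]
  have h4 := map_list_prod ((MvPolynomial.eval (evm (k := k) deg K u' v')).mapMatrix
      (m := Fin w)) (List.ofFn (layer k w p))
  rw [List.map_ofFn] at h4
  have h5 := congrFun (congrFun h4 a) b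
  rw [RingHom.mapMatrix_apply, Matrix.map_apply] at h5
  rw [h5]
  have h6 : ((MvPolynomial.eval (evm (k := k) deg K u' v')).mapMatrix (m := Fin w)) ∘
      (layer k w p) = fun j : Fin k => (Matrix.of fun i i' : Fin w =>
          K j i i' * ((2 : ℂ) ^ p j) ^ (deg (j + 1) i') * (((2 : ℂ) ^ p j)⁻¹) ^ (deg j i) :
            Matrix (Fin w) (Fin w) ℂ) := by
    funext j
    ext1 i i'
    rw [Function.comp_apply, RingHom.mapMatrix_apply, Matrix.map_apply]
    unfold layer
    rw [Matrix.of_apply, Matrix.of_apply, map_mul, map_mul, map_pow, map_pow,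
      MvPolynomial.eval_X, MvPolynomial.eval_X, MvPolynomial.eval_X]
    show K j i i' * ((2 : ℂ) ^ deg (j + 1) i') ^ p j * (((2 : ℂ)⁻¹) ^ deg j i) ^ p j = _
    rw [← pow_mul, ← pow_mul, ← pow_mul, ← inv_pow, ← pow_mul, mul_comm (deg (↑j + 1) i'),
      mul_comm (deg (↑j) i)]
  rw [h6]
  rfl

theorem aeval_C_comp {σ : Type} (ev : σ → ℂ) (P : MvPolynomial σ ℂ) :
    MvPolynomial.aeval (fun i => Polynomial.C (ev i)) P = Polynomial.C (MvPolynomial.eval ev P) := by
  induction P using MvPolynomial.induction_on with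
  | C a => simp
  | add p q hp hq => rw [map_add, map_add, map_add, hp, hq]
  | mul_X p i hp => rw [map_mul, map_mul, map_mul, hp, MvPolynomial.aeval_X, MvPolynomial.eval_X]

theorem card_par (k w : ℕ) : Fintype.card (Par k w) + 1 ≤ npar k w := by
  unfold npar Par
  simp only [Fintype.card_sum, Fintype.card_prod, Fintype.card_fin]
  nlinarith

/-- existence of a good table -/
theorem exists_good (k w : ℕ) (hk : 1 ≤ k) (hw : 1 ≤ w) :
    ∃ T : Fin (pts k w) → Fin k → Fin (side k w), Good w (fun i j => ((T i j : Fin _) : ℕ)) := by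
  classical
  set Θ := side k w with hΘ
  have hΘ0 : 0 < Θ := by
    rw [hΘ, side]; positivity
  have : NeZero Θ := ⟨by omega⟩
  let pat : (Fin k → Matrix (Fin w) (Fin w) (Polynomial ℂ)) → (Fin w → ℂ) → (Fin w → ℂ) → ℕ →
      Finset (Fin k → Fin Θ) := fun B u v s =>
    univ.filter (fun p => ps B u v s (fun j => (2 : ℂ) ^ ((p j : Fin Θ) : ℕ)) ≠ 0)
  let Pat : Finset (Finset (Fin k → Fin Θ)) := univ.filter (fun S => ∃ B u v s,
    (∀ e, co B u v e ≠ 0 → s ≤ ∑ j, e j) ∧ (∃ e, ∑ j, e j = s ∧ co B u v e ≠ 0) ∧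
      S = pat B u v s)
  have hcard : Fintype.card (Fin k → Fin Θ) = Θ ^ k := by simp
  have hD : 1 ≤ 2 * k * Θ + 2 := by omega
  have h1 : ∀ S ∈ Pat, 16 * (Sᶜ).card ≤ Fintype.card (Fin k → Fin Θ) := by
    intro S hS
    obtain ⟨B, u, v, s, hs1, ⟨e, he1, he2⟩, rfl⟩ := (mem_filter.1 hS).2
    have hne : psi B u v s ≠ 0 := by
      intro h
      have := DFunLike.congr_fun h e
      rw [psi_apply, if_pos he1] at this
      exact he2 this
    have hd := Pool.Agent.V8H61.RB.density (Θ := Θ) (psi B u v s) hne (R := w ^ 2) (by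
      intro j
      rw [psi_support]
      exact card_exps B u v s hs1 j)
    have hc : (pat B u v s)ᶜ = univ.filter (fun p : Fin k → Fin Θ =>
      (psi B u v s).sum (fun e c => c * ∏ j, (2 : ℂ) ^ (((p j : Fin Θ) : ℕ) * e j)) = 0) := by
      ext p
      rw [mem_compl, mem_filter, mem_filter, psi_sum B u v s (fun j => ((p j : Fin Θ) : ℕ))]
      simp
    rw [hc, hcard]
    have hkw : 0 < k * w ^ 2 := by positivity
    have h2 : Θ = 16 * (k * w ^ 2) := by rw [hΘ, side]; ring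
    set Z := (univ.filter (fun p : Fin k → Fin Θ =>
      (psi B u v s).sum (fun e c => c * ∏ j, (2 : ℂ) ^ (((p j : Fin Θ) : ℕ) * e j)) = 0)).card
    have h3 : (16 * Z) * (k * w ^ 2) ≤ Θ ^ k * (k * w ^ 2) := by
      calc (16 * Z) * (k * w ^ 2) = Z * (16 * (k * w ^ 2)) := by ring
        _ = Z * Θ := by rw [← h2]
        _ ≤ k * w ^ 2 * Θ ^ k := hd
        _ = Θ ^ k * (k * w ^ 2) := by ring
    exact Nat.le_of_mul_le_mul_right h3 hkw
  have hwit : ∀ {Λ : Type} (X : Λ → (Fin k → Fin Θ)) (B : Fin k → Matrix (Fin w) (Fin w) (Polynomial ℂ))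
      (u v : Fin w → ℂ) (s : ℕ), (∀ e, co B u v e ≠ 0 → s ≤ ∑ j, e j) →
      ∃ (ev : Par k w → Polynomial ℂ) (s' : ℕ) (ψ : Λ → ℂ),
        (∀ l, ∃ r : Polynomial ℂ, MvPolynomial.aeval ev
          (PP k w (fun j => ((X l j : Fin Θ) : ℕ))) =
            Polynomial.X ^ s' * (Polynomial.C (ψ l) + Polynomial.X * r)) ∧
        ∀ l, X l ∈ pat B u v s ↔ ψ l ≠ 0 := by
    intro Λ X B u v s hs1
    obtain ⟨ev, hev⟩ := param_eval hw B u v s hs1
    refine ⟨fun i => Polynomial.C (ev i), 0,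
      fun l => ps B u v s (fun j => (2 : ℂ) ^ ((X l j : Fin Θ) : ℕ)), fun l => ⟨0, ?_⟩,
      fun l => by simp [pat]⟩
    rw [pow_zero, one_mul, mul_zero, add_zero, aeval_C_comp, hev]
  have h2 : Pat.card < 2 ^ rounds k w := by
    have h := pattern_count (2 * k * Θ + 2) hD
      (fun p : Fin k → Fin Θ => PP k w (fun j => ((p j : Fin Θ) : ℕ)))
      (fun p => totalDegree_PP k w Θ _ (fun j => (p j).2)) Pat (by
        intro S hS
        obtain ⟨B, u, v, s, hs1, _, rfl⟩ := (mem_filter.1 hS).2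
        exact hwit (fun p => p) B u v s hs1)
    rw [hcard] at h
    exact lt_two_pow_of _ _ _ (h.trans (Nat.pow_le_pow_right (by omega) (card_par k w)))
  have h3 : ∀ X : Fin (rounds k w) → (Fin k → Fin Θ),
      (Pat.image (fun S => univ.filter (fun l => X l ∈ S))).card < 2 ^ pts k w := by
    intro X
    have h := pattern_count (2 * k * Θ + 2) hD
      (fun l : Fin (rounds k w) => PP k w (fun j => ((X l j : Fin Θ) : ℕ)))
      (fun l => totalDegree_PP k w Θ _ (fun j => (X l j).2))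
      (Pat.image (fun S => univ.filter (fun l => X l ∈ S))) (by
        intro S' hS'
        obtain ⟨S, hS, rfl⟩ := mem_image.1 hS'
        obtain ⟨B, u, v, s, hs1, _, rfl⟩ := (mem_filter.1 hS).2
        obtain ⟨ev, s', ψ, h5, h6⟩ := hwit X B u v s hs1
        refine ⟨ev, s', ψ, h5, fun l => ?_⟩
        rw [← h6 l]
        simp)
    rw [Fintype.card_fin] at h
    exact lt_two_pow_of _ _ _ (h.trans (Nat.pow_le_pow_right (by omega) (card_par k w)))
  obtain ⟨T, hT⟩ := Pool.Agent.V8H61.RB.exists_table Pat h1 (rounds k w) (pts k w) h2 h3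
  refine ⟨T, ?_⟩
  intro B u v s hs1 hs2
  obtain ⟨i, hi⟩ := hT (pat B u v s) (mem_filter.2 ⟨mem_univ _, B, u, v, s, hs1, hs2, rfl⟩)
  exact ⟨i, (mem_filter.1 hi).2⟩

end Pool.Agent.V8H37.Roabp2
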