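import Pool.Agent.V8H37.Roabp.Rec
import Pool.Agent.V8H37.Roabp.Exist

set_option autoImplicit false

namespace Pool.Agent.V8H37.Roabp

open Finset

/-- `f` is computed by a read-once oblivious algebraic branching program of width `w` which reads
`x_0, …, x_{n-1}` in this order: `f = u A_0(x_0) ⋯ A_{n-1}(x_{n-1}) v` for `w × w` matrices `A_i`
of univariate polynomials and vectors `u`, `v`. -/
def IsROABP (n w : ℕ) (f : MvPolynomial (Fin n) ℂ) : Prop :=
  ∃ (A : Fin n → Matrix (Fin w) (Fin w) (Polynomial ℂ)) (u v : Fin w → ℂ),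
    f = ∑ a, ∑ b, MvPolynomial.C (u a) *
      (List.ofFn fun i => (A i).map (Polynomial.aeval (MvPolynomial.X i))).prod a b *
        MvPolynomial.C (v b)

/-- a table with `k` columns as a function on the naturals -/
def tab {m k s : ℕ} (T : Fin m → Fin k → Fin s) (i : Fin m) (j : ℕ) : ℕ :=
  if h : j < k then T i ⟨j, h⟩ else 0

/-- the point with parameter `t` of the table `T` -/
def point (n k m : ℕ) (T : Fin m → ℕ → ℕ) (t : ℤ) : Fin n → ℤ :=
  fun i => gen k m T (Nat.clog k n) i t

/-- The explicit hitting set. -/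
def hittingSet (n w k d : ℕ) : Finset (Fin n → ℤ) :=
  ((univ : Finset (Fin (pts k w) → Fin k → Fin (side k w))) ×ˢ
    range (d * (2 * pts k w) ^ Nat.clog k n + 1)).image
      (fun p => point n k (pts k w) (tab p.1) p.2)

theorem card_hittingSet (n w k d : ℕ) : (hittingSet n w k d).card ≤
    side k w ^ (k * pts k w) * (d * (2 * pts k w) ^ Nat.clog k n + 1) := by
  unfold hittingSet
  refine card_image_le.trans ?_
  rw [card_product, card_range, card_univ, Fintype.card_fun, Fintype.card_fun, Fintype.card_fin,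
    Fintype.card_fin, Fintype.card_fin, ← pow_mul]

/-- the program continued by identity matrices -/
noncomputable def extA {n w : ℕ} (A : Fin n → Matrix (Fin w) (Fin w) (Polynomial ℂ)) :
    ℕ → Matrix (Fin w) (Fin w) (Polynomial ℂ) := fun i => if h : i < n then A ⟨i, h⟩ else 1

theorem eval_eq_val {n w : ℕ} (A : Fin n → Matrix (Fin w) (Fin w) (Polynomial ℂ))
    (u v : Fin w → ℂ) (N : ℕ) (hN : n ≤ N) (x : ℕ → ℂ) :
    MvPolynomial.eval (fun i : Fin n => x i) (∑ a, ∑ b, MvPolynomial.C (u a) *
      (List.ofFn fun i => (A i).map (Polynomial.aeval (MvPolynomial.X i))).prod a b *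
        MvPolynomial.C (v b)) = val (extA A) u v N x := by
  obtain ⟨r, rfl⟩ := Nat.exists_eq_add_of_le hN
  unfold val
  rw [map_sum]
  refine sum_congr rfl fun a _ => ?_
  rw [map_sum]
  refine sum_congr rfl fun b _ => ?_
  rw [map_mul, map_mul, MvPolynomial.eval_C, MvPolynomial.eval_C]
  congr 2
  rw [lp_add]
  have h1 : lp (fun i => (extA A (n + i)).map (Polynomial.eval (x (n + i)))) r = 1 := by
    unfold lp
    apply List.prod_eq_one
    intro M hM
    rw [List.mem_map] at hM
    obtain ⟨i, _, rfl⟩ := hM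
    have : extA A (n + i) = 1 := by
      unfold extA
      rw [dif_neg (by omega)]
    rw [this]
    exact Matrix.map_one _ Polynomial.eval_zero Polynomial.eval_one
  rw [h1, mul_one]
  have h2 : lp (fun i => (extA A i).map (Polynomial.eval (x i))) n =
      (List.ofFn fun i : Fin n => (A i).map (Polynomial.eval (x i))).prod := by
    unfold lp
    rw [← ofFn_eq_range n (fun i => (extA A i).map (Polynomial.eval (x i)))]
    congr 2
    funext i
    have : extA A i = A i := by
      unfold extA
      rw [dif_pos i.2]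
    rw [this]
  rw [h2]
  have h4 := map_list_prod ((MvPolynomial.eval (fun i : Fin n => x i)).mapMatrix (m := Fin w))
    (List.ofFn fun i => (A i).map (Polynomial.aeval (MvPolynomial.X i : MvPolynomial (Fin n) ℂ)))
  rw [List.map_ofFn] at h4
  have h5 := congrFun (congrFun h4 a) b
  rw [RingHom.mapMatrix_apply, Matrix.map_apply] at h5
  rw [h5]
  have h6 : (((MvPolynomial.eval (fun i : Fin n => x i)).mapMatrix (m := Fin w)) ∘
      fun i => (A i).map (Polynomial.aeval (MvPolynomial.X i : MvPolynomial (Fin n) ℂ))) =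
      fun i : Fin n => (A i).map (Polynomial.eval (x i)) := by
    funext i
    ext a' b'
    rw [Function.comp_apply, RingHom.mapMatrix_apply, Matrix.map_apply, Matrix.map_apply,
      Matrix.map_apply]
    have h7 : MvPolynomial.eval (fun i : Fin n => x i)
        (Polynomial.aeval (MvPolynomial.X i : MvPolynomial (Fin n) ℂ) (A i a' b')) =
        Polynomial.eval (x i) (A i a' b') := by
      rw [Polynomial.aeval_def, Polynomial.hom_eval₂, MvPolynomial.eval_X]
      rw [Polynomial.eval₂_eq_eval_map]
      congr 1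
      have : ((MvPolynomial.eval fun i : Fin n => x i).comp
          (algebraMap ℂ (MvPolynomial (Fin n) ℂ))) = RingHom.id ℂ := by
        ext z
        simp
      rw [this, Polynomial.map_id]
    exact h7
  rw [h6]

theorem natDegree_cval (m : ℕ) (T : Fin m → ℕ) (P : Polynomial ℂ) :
    (cval m T P).natDegree ≤ 2 * m * P.natDegree := by
  have hsub : ∀ i : ℕ, (P - (i : Polynomial ℂ)).natDegree ≤ P.natDegree := by
    intro i
    refine (Polynomial.natDegree_sub_le _ _).trans ?_
    simp
  have h1 : (dval m P).natDegree ≤ m * P.natDegree := by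
    unfold dval
    refine (Polynomial.natDegree_prod_le _ _).trans ?_
    calc ∑ i : Fin m, (P - ((i : ℕ) : Polynomial ℂ)).natDegree ≤ ∑ _i : Fin m, P.natDegree :=
          sum_le_sum fun i _ => hsub i
      _ = m * P.natDegree := by simp
  have h2 : (hval m T P).natDegree ≤ m * P.natDegree := by
    unfold hval
    apply Polynomial.natDegree_sum_le_of_forall_le
    intro i _
    refine (Polynomial.natDegree_mul_le).trans ?_
    have h3 : ((2 : Polynomial ℂ) ^ T i).natDegree = 0 := by
      have : (2 : Polynomial ℂ) ^ T i = Polynomial.C ((2 : ℂ) ^ T i) := by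
        rw [map_pow, map_ofNat]
      rw [this, Polynomial.natDegree_C]
    rw [h3, zero_add]
    refine (Polynomial.natDegree_prod_le _ _).trans ?_
    calc ∑ l ∈ univ.erase i, (P - ((l : ℕ) : Polynomial ℂ)).natDegree
        ≤ ∑ _l ∈ univ.erase i, P.natDegree := sum_le_sum fun l _ => hsub l
      _ ≤ ∑ _l : Fin m, P.natDegree := sum_le_sum_of_subset (erase_subset _ _)
      _ = m * P.natDegree := by simp
  unfold cval
  refine (Polynomial.natDegree_mul_le).trans ?_
  calc (dval m P).natDegree + (hval m T P).natDegree ≤ m * P.natDegree + m * P.natDegree :=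
        add_le_add h1 h2
    _ = 2 * m * P.natDegree := by ring

theorem natDegree_gen (k m : ℕ) (T : Fin m → ℕ → ℕ) (L i : ℕ) :
    (gen k m T L i (Polynomial.X : Polynomial ℂ)).natDegree ≤ (2 * m) ^ L := by
  induction L generalizing i with
  | zero => simp [gen]
  | succ L ih =>
    show (cval m (col T (i % k)) (gen k m T L (i / k) Polynomial.X)).natDegree ≤ _
    refine (natDegree_cval _ _ _).trans ?_
    rw [pow_succ, mul_comm]
    exact Nat.mul_le_mul_right _ (ih _)

theorem hittingSet_hits (n w k d : ℕ) (hk : 2 ≤ k) (hw : 1 ≤ w) (f : MvPolynomial (Fin n) ℂ)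
    (hf : IsROABP n w f) (hd : f.totalDegree ≤ d) (h0 : f ≠ 0) :
    ∃ a ∈ hittingSet n w k d, MvPolynomial.eval (fun i => ((a i : ℤ) : ℂ)) f ≠ 0 := by
  classical
  set m := pts k w with hm
  obtain ⟨T, hT⟩ : ∃ T : Fin m → Fin k → Fin (side k w),
    Good w (fun i j => ((T i j : Fin _) : ℕ)) := exists_good k w (by omega) hw
  obtain ⟨A, u, v, hfA⟩ := hf
  set L := Nat.clog k n with hL
  have hn : n ≤ k ^ L := Nat.le_pow_clog (by omega) n
  -- a non-zero value
  obtain ⟨x, hx⟩ : ∃ x : Fin n → ℂ, MvPolynomial.eval x f ≠ 0 := by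
    by_contra h
    push Not at h
    apply h0
    apply MvPolynomial.funext
    intro x
    rw [h x, map_zero]
  set x' : ℕ → ℂ := fun i => if h : i < n then x ⟨i, h⟩ else 0 with hx'
  have hxx : (fun i : Fin n => x' i) = x := by
    funext i
    rw [hx']
    simp [i.2]
  have hv : ∀ z : ℕ → ℂ, MvPolynomial.eval (fun i : Fin n => z i) f =
      val (extA A) u v (k ^ L) z := by
    intro z
    rw [hfA]
    exact eval_eq_val A u v (k ^ L) hn z
  have hx1 : val (extA A) u v (k ^ L) x' ≠ 0 := by
    rw [← hv, hxx]; exact hx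
  have hT' : Good w (fun (i : Fin m) (j : Fin k) => tab T i j) := by
    have : (fun (i : Fin m) (j : Fin k) => tab T i j) = fun i j => ((T i j : Fin _) : ℕ) := by
      funext i j
      unfold tab
      rw [dif_pos j.2]
    rw [this]
    exact hT
  obtain ⟨t, ht⟩ := gen_hit (by omega : 0 < k) (tab T) hT' L (extA A) u v x' hx1
  rw [← hv] at ht
  -- the polynomial in t
  set g : Polynomial ℂ := MvPolynomial.aeval
    (fun i : Fin n => gen k m (tab T) L i (Polynomial.X : Polynomial ℂ)) f with hg
  have hgev : ∀ z : ℂ, g.eval z = MvPolynomial.eval (fun i : Fin n => gen k m (tab T) L i z) f := by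
    intro z
    have h1 : g.eval z = (Polynomial.evalRingHom z) (MvPolynomial.aeval
      (fun i : Fin n => gen k m (tab T) L i (Polynomial.X : Polynomial ℂ)) f) := rfl
    rw [h1, MvPolynomial.aeval_def, MvPolynomial.hom_eval₂]
    rw [MvPolynomial.eval, MvPolynomial.coe_eval₂Hom]
    congr 1
    · ext y; simp
    · funext i
      show (Polynomial.evalRingHom z) (gen k m (tab T) L i Polynomial.X) = _
      rw [map_gen]
      simp
  have hg0 : g ≠ 0 := by
    intro h
    apply ht
    rw [← hgev, h, Polynomial.eval_zero]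
  have hdeg : g.natDegree ≤ d * (2 * m) ^ L :=
    MvPolynomial.aeval_natDegree_le f hd _ (fun i => natDegree_gen k m (tab T) L i)
  obtain ⟨τ, hτ, hτ0⟩ : ∃ τ ∈ range (d * (2 * m) ^ L + 1), g.eval ((τ : ℕ) : ℂ) ≠ 0 := by
    by_contra h
    push Not at h
    apply hg0
    apply Polynomial.eq_zero_of_natDegree_lt_card_of_eval_eq_zero' g
      ((range (d * (2 * m) ^ L + 1)).image (fun τ : ℕ => (τ : ℂ)))
    · intro z hz
      obtain ⟨τ, hτ, rfl⟩ := mem_image.1 hz
      exact h τ hτ
    · rw [card_image_of_injective _ Nat.cast_injective, card_range]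
      omega
  refine ⟨point n k m (tab T) (τ : ℤ), ?_, ?_⟩
  · unfold hittingSet
    refine mem_image.2 ⟨(T, τ), ?_, rfl⟩
    exact mem_product.2 ⟨mem_univ _, hτ⟩
  · rw [hgev] at hτ0
    have : (fun i : Fin n => ((point n k m (tab T) (τ : ℤ) i : ℤ) : ℂ)) =
        fun i : Fin n => gen k m (tab T) L i ((τ : ℕ) : ℂ) := by
      funext i
      unfold point
      have := map_gen (Int.castRingHom ℂ) k m (tab T) L i (τ : ℤ)
      simpa using this
    rw [this]
    exact hτ0

end Pool.Agent.V8H37.Roabp
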