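import Pool.Agent.V8H37.Roabp.Defs2

/-!
# The hitting sets for read-once oblivious algebraic branching programs: definitions
-/

set_option autoImplicit false

namespace Pool.Agent.V8H37.Roabp2

open Finset

/-- `f` is computed by a read-once oblivious algebraic branching program of width `w` which reads
`x_0, …, x_{n-1}` in this order: `f = u A_0(x_0) ⋯ A_{n-1}(x_{n-1}) v` for `w × w` matrices `A_i`
of univariate polynomials and vectors `u`, `v`. -/
def IsROABP (n w : ℕ) (f : MvPolynomial (Fin n) ℂ) : Prop :=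
  ∃ (A : Fin n → Matrix (Fin w) (Fin w) (Polynomial ℂ)) (u v : Fin w → ℂ),
    f = ∑ a, ∑ b, MvPolynomial.C (u a) *
      (List.ofFn fun i => (A i).map (Polynomial.aeval (MvPolynomial.X i))).prod a b *
        MvPolynomial.C (v b)

/-- The polynomial `c(t) = ∏_{i<m} (t - i) · ∑_{i<m} 2^(T_i) ∏_{l≠i} (t - l)` of degree `< 2m`. -/
def subst {m : ℕ} (T : Fin m → ℕ) (t : ℤ) : ℤ :=
  (∏ i : Fin m, (t - ((i : ℕ) : ℤ))) *
    ∑ i : Fin m, 2 ^ T i * ∏ l ∈ univ.erase i, (t - ((l : ℕ) : ℤ))

/-- The values `x_i(t)`, `i < k^L`: the values `x_(qk), …, x_(qk+k-1)` of a block of `k` consecutive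
variables at level `L + 1` are the values `c_0(y), …, c_(k-1)(y)` of the polynomials `c_j` of the
columns `j` of the table `T` at the value `y` of the variable `q` at level `L`. -/
def values {m : ℕ} (k : ℕ) (T : Fin m → ℕ → ℕ) : ℕ → ℕ → ℤ → ℤ
  | 0, _, t => t
  | L + 1, i, t => subst (fun r => T r (i % k)) (values k T L (i / k) t)

/-- a table with `k` columns, continued by `0` -/
def tab {m k s : ℕ} (T : Fin m → Fin k → Fin s) (r : Fin m) (j : ℕ) : ℕ :=
  if h : j < k then T r ⟨j, h⟩ else 0

/-- The point with parameter `t` of the table `T`. -/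
def point {m k s : ℕ} (n : ℕ) (T : Fin m → Fin k → Fin s) (t : ℕ) : Fin n → ℤ :=
  fun i => values k (tab T) (Nat.clog k n) i t

/-- The explicit hitting set: the points of all tables of `pts k w` rows and `k` columns with
entries smaller than `side k w`, for the parameters `t ≤ d (2 pts)^⌈log_k n⌉`. -/
def hittingSet (n w k d : ℕ) : Finset (Fin n → ℤ) :=
  ((univ : Finset (Fin (pts k w) → Fin k → Fin (side k w))) ×ˢ
    range (d * (2 * pts k w) ^ Nat.clog k n + 1)).image (fun p => point n p.1 p.2)

end Pool.Agent.V8H37.Roabp2
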