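import Pool.Agent.V8H37.Roabp.Support

set_option autoImplicit false

namespace Pool.Agent.V8H37.Roabp

open Finset

/-- the product of `t - i`, `i < m` -/
def dval {R : Type} [CommRing R] (m : ℕ) (t : R) : R := ∏ i : Fin m, (t - ((i : ℕ) : R))

/-- the interpolating factor -/
def hval {R : Type} [CommRing R] (m : ℕ) (T : Fin m → ℕ) (t : R) : R :=
  ∑ i : Fin m, 2 ^ T i * ∏ l ∈ univ.erase i, (t - ((l : ℕ) : R))

/-- the substitution `D(t) h(t)` -/
def cval {R : Type} [CommRing R] (m : ℕ) (T : Fin m → ℕ) (t : R) : R := dval m t * hval m T t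

theorem map_dval {R S : Type} [CommRing R] [CommRing S] (f : R →+* S) (m : ℕ) (t : R) :
    f (dval m t) = dval m (f t) := by
  unfold dval; simp [map_prod, map_sub]

theorem map_hval {R S : Type} [CommRing R] [CommRing S] (f : R →+* S) (m : ℕ) (T : Fin m → ℕ)
    (t : R) : f (hval m T t) = hval m T (f t) := by
  unfold hval
  have h2 : f 2 = 2 := map_ofNat f 2
  simp [map_prod, map_sub, map_sum, map_mul, map_pow, h2]

theorem map_cval {R S : Type} [CommRing R] [CommRing S] (f : R →+* S) (m : ℕ) (T : Fin m → ℕ)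
    (t : R) : f (cval m T t) = cval m T (f t) := by
  unfold cval; rw [map_mul, map_dval, map_hval]

theorem map_ev {k w : ℕ} (B : Fin k → Matrix (Fin w) (Fin w) (Polynomial ℂ))
    (u v : Fin w → ℂ) {A A' : Type} [CommRing A] [Algebra ℂ A] [CommRing A'] [Algebra ℂ A']
    (f : A →ₐ[ℂ] A') (z : Fin k → A) : f (ev B u v z) = ev B u v (fun j => f (z j)) := by
  obtain ⟨δ, hδ⟩ := exists_bound B
  rw [ev_eq_sum B u v z δ hδ, ev_eq_sum B u v _ δ hδ, map_sum]
  refine sum_congr rfl fun e _ => ?_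
  rw [map_mul, map_prod, AlgHom.commutes]
  congr 1
  refine prod_congr rfl fun j _ => ?_
  rw [map_pow]

/-- the table `T` hits the lowest part of every non-zero program of width `w` -/
def Good (w : ℕ) {k m : ℕ} (T : Fin m → Fin k → ℕ) : Prop :=
  ∀ (B : Fin k → Matrix (Fin w) (Fin w) (Polynomial ℂ)) (u v : Fin w → ℂ) (s : ℕ),
    (∀ e, co B u v e ≠ 0 → s ≤ ∑ j, e j) → (∃ e, ∑ j, e j = s ∧ co B u v e ≠ 0) →
      ∃ i, ps B u v s (fun j => (2 : ℂ) ^ T i j) ≠ 0

theorem dval_root {m : ℕ} (i : Fin m) : dval m ((i : ℕ) : ℂ) = 0 := by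
  unfold dval
  exact prod_eq_zero (mem_univ i) (by simp)

theorem hval_root {m : ℕ} (T : Fin m → ℕ) (i : Fin m) :
    hval m T ((i : ℕ) : ℂ) = 2 ^ T i * ∏ l ∈ univ.erase i, (((i : ℕ) : ℂ) - ((l : ℕ) : ℂ)) := by
  unfold hval
  rw [Fintype.sum_eq_single i]
  intro i' hi'
  rw [prod_eq_zero (mem_erase.2 ⟨Ne.symm hi', mem_univ i⟩) (by simp), mul_zero]

theorem block_hit {k w m : ℕ} (T : Fin m → Fin k → ℕ) (hT : Good w T)
    (B : Fin k → Matrix (Fin w) (Fin w) (Polynomial ℂ)) (u v : Fin w → ℂ) (x : Fin k → ℂ)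
    (hx : ev B u v x ≠ 0) : ∃ t : ℂ, ev B u v (fun j => cval m (fun i => T i j) t) ≠ 0 := by
  classical
  by_contra hcon
  push Not at hcon
  obtain ⟨δ, hδ⟩ := exists_bound B
  -- a non-zero coefficient
  have hex : ∃ s, ∃ e : Fin k → ℕ, ∑ j, e j = s ∧ co B u v e ≠ 0 := by
    by_contra h
    push Not at h
    apply hx
    rw [ev_eq_sum B u v x δ hδ]
    refine sum_eq_zero fun e _ => ?_
    rw [h _ e rfl]; simp
  set s := Nat.find hex with hsdef
  have hs1 : ∃ e : Fin k → ℕ, ∑ j, e j = s ∧ co B u v e ≠ 0 := Nat.find_spec hex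
  have hs2 : ∀ e, co B u v e ≠ 0 → s ≤ ∑ j, e j := fun e he => Nat.find_min' hex ⟨e, rfl, he⟩
  -- the polynomial in t
  have hG : ev B u v (fun j => cval m (fun i => T i j) (Polynomial.X : Polynomial ℂ)) = 0 := by
    apply Polynomial.funext
    intro t
    have h1 := map_ev B u v (Polynomial.aeval t : Polynomial ℂ →ₐ[ℂ] ℂ)
      (fun j => cval m (fun i => T i j) (Polynomial.X : Polynomial ℂ))
    have h2 : (fun j => (Polynomial.aeval t : Polynomial ℂ →ₐ[ℂ] ℂ)
        (cval m (fun i => T i j) (Polynomial.X : Polynomial ℂ))) =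
        fun j => cval m (fun i => T i j) t := by
      funext j
      have := map_cval (Polynomial.aeval t : Polynomial ℂ →ₐ[ℂ] ℂ).toRingHom m (fun i => T i j)
        (Polynomial.X : Polynomial ℂ)
      simpa using this
    rw [h2, hcon t] at h1
    rw [Polynomial.eval_zero, ← h1, Polynomial.aeval_def, Polynomial.eval₂_eq_eval_map]
    simp
  rw [ev_eq_sum B u v _ δ hδ] at hG
  obtain ⟨r, hr⟩ := lowest_part (co B u v) (Fintype.piFinset (fun _ : Fin k => range δ)) s
    (fun e _ he => hs2 e he)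
    (by
      intro e _ he
      rw [Fintype.mem_piFinset]
      intro j
      rw [mem_range]
      by_contra hj
      push Not at hj
      apply he
      unfold co
      refine sum_eq_zero fun a _ => sum_eq_zero fun b _ => ?_
      have h0 : (B j).map (fun q => q.coeff (e j)) = 0 := by
        ext a' b'
        rw [Matrix.map_apply, Matrix.zero_apply]
        exact Polynomial.coeff_eq_zero_of_natDegree_lt (lt_of_lt_of_le (hδ j a' b') hj)
      have h1 : (List.ofFn (fun j => (B j).map (fun q => q.coeff (e j)))).prod = 0 := by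
        apply List.prod_eq_zero
        rw [List.mem_ofFn]
        exact ⟨j, h0⟩
      rw [h1]; simp)
    (dval m (Polynomial.X : Polynomial ℂ)) (fun j => hval m (fun i => T i j) Polynomial.X)
  have hG' : (dval m (Polynomial.X : Polynomial ℂ)) ^ s * ((∑ e ∈ Finset.piAntidiag (univ : Finset (Fin k)) s,
      algebraMap ℂ (Polynomial ℂ) (co B u v e) *
        ∏ j, hval m (fun i => T i j) (Polynomial.X : Polynomial ℂ) ^ e j) +
        dval m (Polynomial.X : Polynomial ℂ) * r) = 0 := by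
    rw [← hr, ← hG]
    rfl
  have hD : dval m (Polynomial.X : Polynomial ℂ) ≠ 0 := by
    unfold dval
    rw [prod_ne_zero_iff]
    intro i _
    have : (Polynomial.X : Polynomial ℂ) - ((i : ℕ) : Polynomial ℂ) =
        Polynomial.X - Polynomial.C ((i : ℕ) : ℂ) := by simp
    rw [this]
    exact Polynomial.X_sub_C_ne_zero _
  rcases mul_eq_zero.1 hG' with h | h
  · exact pow_ne_zero _ hD h
  obtain ⟨i, hi⟩ := hT B u v s hs2 hs1
  apply hi
  have h3 := congrArg (Polynomial.aeval ((i : ℕ) : ℂ) : Polynomial ℂ →ₐ[ℂ] ℂ) h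
  rw [map_add, map_mul, map_zero, map_sum] at h3
  have hd0 : (Polynomial.aeval ((i : ℕ) : ℂ) : Polynomial ℂ →ₐ[ℂ] ℂ)
      (dval m (Polynomial.X : Polynomial ℂ)) = 0 := by
    have := map_dval (Polynomial.aeval ((i : ℕ) : ℂ) : Polynomial ℂ →ₐ[ℂ] ℂ).toRingHom m
      (Polynomial.X : Polynomial ℂ)
    have h4 : (Polynomial.aeval ((i : ℕ) : ℂ) : Polynomial ℂ →ₐ[ℂ] ℂ)
      (dval m (Polynomial.X : Polynomial ℂ)) = dval m ((i : ℕ) : ℂ) := by simpa using this
    rw [h4, dval_root]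
  rw [hd0, zero_mul, add_zero] at h3
  set ℓ : ℂ := ∏ l ∈ univ.erase i, (((i : ℕ) : ℂ) - ((l : ℕ) : ℂ)) with hℓ
  have hℓ0 : ℓ ≠ 0 := by
    rw [hℓ, prod_ne_zero_iff]
    intro l hl h0
    have : ((i : ℕ) : ℂ) = ((l : ℕ) : ℂ) := sub_eq_zero.1 h0
    exact (ne_of_mem_erase hl) (Fin.ext (Nat.cast_injective this).symm)
  have h5 : ∀ e ∈ Finset.piAntidiag (univ : Finset (Fin k)) s,
      (Polynomial.aeval ((i : ℕ) : ℂ) : Polynomial ℂ →ₐ[ℂ] ℂ)
        (algebraMap ℂ (Polynomial ℂ) (co B u v e) *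
          ∏ j, hval m (fun i => T i j) (Polynomial.X : Polynomial ℂ) ^ e j) =
      ℓ ^ s * (algebraMap ℂ ℂ (co B u v e) * ∏ j, ((2 : ℂ) ^ T i j) ^ e j) := by
    intro e he
    rw [mem_piAntidiag] at he
    rw [map_mul, map_prod, AlgHom.commutes]
    have h6 : ∀ j, (Polynomial.aeval ((i : ℕ) : ℂ) : Polynomial ℂ →ₐ[ℂ] ℂ)
        (hval m (fun i => T i j) (Polynomial.X : Polynomial ℂ) ^ e j) =
        ((2 : ℂ) ^ T i j) ^ e j * ℓ ^ e j := by
      intro j
      rw [map_pow]
      have := map_hval (Polynomial.aeval ((i : ℕ) : ℂ) : Polynomial ℂ →ₐ[ℂ] ℂ).toRingHom m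
        (fun i => T i j) (Polynomial.X : Polynomial ℂ)
      have h7 : (Polynomial.aeval ((i : ℕ) : ℂ) : Polynomial ℂ →ₐ[ℂ] ℂ)
          (hval m (fun i => T i j) (Polynomial.X : Polynomial ℂ)) =
          hval m (fun i => T i j) ((i : ℕ) : ℂ) := by simpa using this
      rw [h7, hval_root, mul_pow]
    rw [prod_congr rfl fun j _ => h6 j, prod_mul_distrib, prod_pow_eq_pow_sum, he.1]
    ring
  rw [sum_congr rfl h5, ← mul_sum] at h3
  rcases mul_eq_zero.1 h3 with h8 | h8
  · exact absurd h8 (pow_ne_zero _ hℓ0)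
  · exact h8

end Pool.Agent.V8H37.Roabp
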