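import Pool.Agent.V8H37.Roabp.Hit
import Pool.Agent.V8H37.Roabp.Count

set_option autoImplicit false

namespace Pool.Agent.V8H37.Roabp

open Finset

/-- the parameters: coefficient matrices, powers of two, boundary vectors -/
abbrev Par (k w R : ℕ) : Type :=
  (Fin k × Fin R × Fin w × Fin w) ⊕ ((Fin k × Fin R) ⊕ (Fin w ⊕ Fin w))

/-- the polynomial in the parameters giving the value at the point `p` -/
noncomputable def PP (k w R : ℕ) (p : Fin k → ℕ) : MvPolynomial (Par k w R) ℂ :=
  ∑ a : Fin w, ∑ b : Fin w, MvPolynomial.X (Sum.inr (Sum.inr (Sum.inl a))) *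
    (List.ofFn (fun j : Fin k => (Matrix.of fun a' b' : Fin w => ∑ r : Fin R,
      MvPolynomial.X (Sum.inl (j, r, a', b')) *
        MvPolynomial.X (Sum.inr (Sum.inl (j, r))) ^ p j :
          Matrix (Fin w) (Fin w) (MvPolynomial (Par k w R) ℂ)))).prod a b *
    MvPolynomial.X (Sum.inr (Sum.inr (Sum.inr b)))

theorem list_degree {ι : Type} {w Θ : ℕ} (l : List (Matrix (Fin w) (Fin w) (MvPolynomial ι ℂ)))
    (hl : ∀ M ∈ l, ∀ a b, (M a b).totalDegree ≤ Θ) (a b : Fin w) :
    (l.prod a b).totalDegree ≤ l.length * Θ := by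
  induction l generalizing a with
  | nil =>
    simp only [List.prod_nil, List.length_nil, zero_mul, Nat.le_zero]
    by_cases h : a = b
    · rw [h, Matrix.one_apply_eq]; simp
    · rw [Matrix.one_apply_ne h]; simp
  | cons M l ih =>
    rw [List.prod_cons, Matrix.mul_apply]
    apply MvPolynomial.totalDegree_finsetSum_le
    intro c _
    refine (MvPolynomial.totalDegree_mul _ _).trans ?_
    have h1 := hl M (by simp) a c
    have h2 := ih (fun M' hM' => hl M' (by simp [hM'])) c
    rw [List.length_cons, Nat.succ_mul]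
    omega

theorem totalDegree_PP (k w R Θ : ℕ) (p : Fin k → ℕ) (hp : ∀ j, p j < Θ) :
    (PP k w R p).totalDegree ≤ k * Θ + 2 := by
  unfold PP
  apply MvPolynomial.totalDegree_finsetSum_le
  intro a _
  apply MvPolynomial.totalDegree_finsetSum_le
  intro b _
  have h1 := list_degree (Θ := Θ) (List.ofFn (fun j : Fin k => (Matrix.of fun a' b' : Fin w =>
      ∑ r : Fin R, MvPolynomial.X (Sum.inl (j, r, a', b')) *
        MvPolynomial.X (Sum.inr (Sum.inl (j, r))) ^ p j :
          Matrix (Fin w) (Fin w) (MvPolynomial (Par k w R) ℂ)))) (by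
    intro M hM a' b'
    rw [List.mem_ofFn] at hM
    obtain ⟨j, rfl⟩ := hM
    rw [Matrix.of_apply]
    apply MvPolynomial.totalDegree_finsetSum_le
    intro r _
    refine (MvPolynomial.totalDegree_mul _ _).trans ?_
    have h2 := MvPolynomial.totalDegree_pow
      (MvPolynomial.X (Sum.inr (Sum.inl (j, r))) : MvPolynomial (Par k w R) ℂ) (p j)
    rw [MvPolynomial.totalDegree_X, mul_one] at h2
    rw [MvPolynomial.totalDegree_X]
    have := hp j
    omega) a b
  rw [List.length_ofFn] at h1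
  refine (MvPolynomial.totalDegree_mul _ _).trans ?_
  rw [MvPolynomial.totalDegree_X]
  have h3 := MvPolynomial.totalDegree_mul
    (MvPolynomial.X (Sum.inr (Sum.inr (Sum.inl a))) : MvPolynomial (Par k w R) ℂ)
    ((List.ofFn (fun j : Fin k => (Matrix.of fun a' b' : Fin w =>
      ∑ r : Fin R, MvPolynomial.X (Sum.inl (j, r, a', b')) *
        MvPolynomial.X (Sum.inr (Sum.inl (j, r))) ^ p j :
          Matrix (Fin w) (Fin w) (MvPolynomial (Par k w R) ℂ)))).prod a b)
  rw [MvPolynomial.totalDegree_X] at h3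
  omega

/-- enumeration of a small finite set of naturals by `Fin R` -/
theorem exists_enum (E : Finset ℕ) (R : ℕ) (h : E.card ≤ R) :
    ∃ ρ : Fin R → Option ℕ, ∀ (A : Type) [AddCommMonoid A] (F : ℕ → A),
      ∑ r, (ρ r).elim 0 F = ∑ e ∈ E, F e := by
  classical
  let ρ : Fin R → Option ℕ := fun r =>
    if h' : (r : ℕ) < E.card then some (E.equivFin.symm ⟨r, h'⟩ : E).1 else none
  refine ⟨ρ, fun A _ F => ?_⟩
  have h1 : ∑ e ∈ E, F e = ∑ i : Fin E.card, F (E.equivFin.symm i : E).1 := by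
    rw [← Finset.sum_coe_sort E F]
    exact (Equiv.sum_comp E.equivFin.symm (fun e : E => F e.1)).symm
  rw [h1]
  have h2 : ∑ r : Fin R, (ρ r).elim 0 F = ∑ r ∈ range R,
      (if h' : r < E.card then F (E.equivFin.symm ⟨r, h'⟩ : E).1 else 0) := by
    rw [← Fin.sum_univ_eq_sum_range (fun r =>
      (if h' : r < E.card then F (E.equivFin.symm ⟨r, h'⟩ : E).1 else 0)) R]
    refine sum_congr rfl fun r _ => ?_
    simp only [ρ]
    split_ifs <;> rfl
  have h3 : ∑ i : Fin E.card, F (E.equivFin.symm i : E).1 = ∑ r ∈ range E.card,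
      (if h' : r < E.card then F (E.equivFin.symm ⟨r, h'⟩ : E).1 else 0) := by
    rw [← Fin.sum_univ_eq_sum_range (fun r =>
      (if h' : r < E.card then F (E.equivFin.symm ⟨r, h'⟩ : E).1 else 0)) E.card]
    refine sum_congr rfl fun r _ => ?_
    rw [dif_pos r.2]
  rw [h2, h3]
  symm
  apply sum_subset (range_subset_range.2 h)
  intro r _ hr
  rw [mem_range] at hr
  rw [dif_neg hr]

/-- the parameters of a program -/
noncomputable def evm {k w R : ℕ} (B : Fin k → Matrix (Fin w) (Fin w) (Polynomial ℂ))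
    (u v : Fin w → ℂ) (ρ : Fin k → Fin R → Option ℕ) : Par k w R → Polynomial ℂ
  | Sum.inl (j, r, a, b) =>
      (ρ j r).elim 0 (fun e => Polynomial.C ((B j a b).coeff e) * Polynomial.X ^ e)
  | Sum.inr (Sum.inl (j, r)) => (ρ j r).elim 0 (fun e => Polynomial.C ((2 : ℂ) ^ e))
  | Sum.inr (Sum.inr (Sum.inl a)) => Polynomial.C (u a)
  | Sum.inr (Sum.inr (Sum.inr b)) => Polynomial.C (v b)

theorem param_eval {k w : ℕ} (B : Fin k → Matrix (Fin w) (Fin w) (Polynomial ℂ))
    (u v : Fin w → ℂ) (s : ℕ) (hs : ∀ e, co B u v e ≠ 0 → s ≤ ∑ i, e i) :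
    ∃ ev : Par k w (w ^ 2) → Polynomial ℂ, ∀ p : Fin k → ℕ, ∃ r : Polynomial ℂ,
      MvPolynomial.aeval ev (PP k w (w ^ 2) p) = Polynomial.X ^ s *
        (Polynomial.C (ps B u v s (fun j => (2 : ℂ) ^ p j)) + Polynomial.X * r) := by
  classical
  have hen : ∀ j : Fin k, ∃ ρ : Fin (w ^ 2) → Option ℕ, ∀ (A : Type) [AddCommMonoid A]
      (F : ℕ → A), ∑ r, (ρ r).elim 0 F = ∑ e ∈ (supp B u v s).image (fun e => e j), F e :=
    fun j => exists_enum _ _ (card_exps B u v s hs j)
  choose ρ hρ using hen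
  refine ⟨evm B u v ρ, fun p => ?_⟩
  obtain ⟨r, hr⟩ := lowest_part (co B u v)
    (Fintype.piFinset (fun j => (supp B u v s).image (fun e => e j))) s
    (fun e _ he => hs e he)
    (by
      intro e he1 he2
      rw [Fintype.mem_piFinset]
      intro j
      exact mem_image_of_mem _ ((mem_supp B u v s e).2 ⟨he1, he2⟩))
    (Polynomial.X : Polynomial ℂ) (fun j => Polynomial.C ((2 : ℂ) ^ p j))
  refine ⟨r, ?_⟩
  have h0 : (∑ e ∈ Finset.piAntidiag (univ : Finset (Fin k)) s,
        algebraMap ℂ (Polynomial ℂ) (co B u v e) * ∏ j, (Polynomial.C ((2 : ℂ) ^ p j)) ^ e j) =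
      Polynomial.C (ps B u v s (fun j => (2 : ℂ) ^ p j)) := by
    unfold ps
    rw [map_sum]
    refine sum_congr rfl fun e _ => ?_
    rw [map_mul, map_prod]
    simp
  rw [h0] at hr
  rw [← hr]
  have h1 := expand_gen (fun j => (supp B u v s).image (fun e => e j))
    (fun j e => (B j).map (fun q => q.coeff e)) u v
    (fun j => (Polynomial.X : Polynomial ℂ) * Polynomial.C ((2 : ℂ) ^ p j))
  have h2 : (∑ e ∈ Fintype.piFinset (fun j => (supp B u v s).image (fun e => e j)),
      algebraMap ℂ (Polynomial ℂ) (co B u v e) *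
        ∏ j, ((Polynomial.X : Polynomial ℂ) * Polynomial.C ((2 : ℂ) ^ p j)) ^ e j) =
      ∑ e ∈ Fintype.piFinset (fun j => (supp B u v s).image (fun e => e j)),
      algebraMap ℂ (Polynomial ℂ) (∑ a, ∑ b, u a * (List.ofFn (fun j =>
        (B j).map (fun q => q.coeff (e j)))).prod a b * v b) *
        ∏ j, ((Polynomial.X : Polynomial ℂ) * Polynomial.C ((2 : ℂ) ^ p j)) ^ e j := rfl
  rw [h2, ← h1]
  unfold PP
  rw [map_sum]
  refine sum_congr rfl fun a _ => ?_
  rw [map_sum]
  refine sum_congr rfl fun b _ => ?_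
  rw [map_mul, map_mul, MvPolynomial.aeval_X, MvPolynomial.aeval_X]
  have h3 : (MvPolynomial.aeval (evm B u v ρ)) ((List.ofFn (fun j : Fin k =>
      (Matrix.of fun a' b' : Fin w => ∑ r : Fin (w ^ 2),
      MvPolynomial.X (Sum.inl (j, r, a', b')) *
        MvPolynomial.X (Sum.inr (Sum.inl (j, r))) ^ p j :
          Matrix (Fin w) (Fin w) (MvPolynomial (Par k w (w ^ 2)) ℂ)))).prod a b) =
      (List.ofFn (fun j => ∑ e ∈ (supp B u v s).image (fun e => e j),
        ((Polynomial.X : Polynomial ℂ) * Polynomial.C ((2 : ℂ) ^ p j)) ^ e •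
          ((B j).map (fun q => q.coeff e)).map (algebraMap ℂ (Polynomial ℂ)))).prod a b := by
    have h4 := map_list_prod ((MvPolynomial.aeval (evm B u v ρ)).toRingHom.mapMatrix
      (m := Fin w)) (List.ofFn (fun j : Fin k =>
      (Matrix.of fun a' b' : Fin w => ∑ r : Fin (w ^ 2),
      MvPolynomial.X (Sum.inl (j, r, a', b')) *
        MvPolynomial.X (Sum.inr (Sum.inl (j, r))) ^ p j :
          Matrix (Fin w) (Fin w) (MvPolynomial (Par k w (w ^ 2)) ℂ))))
    rw [List.map_ofFn] at h4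
    have h5 := congrFun (congrFun h4 a) b
    rw [RingHom.mapMatrix_apply, Matrix.map_apply] at h5
    refine Eq.trans h5 ?_
    have h6 : ((MvPolynomial.aeval (evm B u v ρ)).toRingHom.mapMatrix (m := Fin w)) ∘
      (fun j : Fin k =>
      (Matrix.of fun a' b' : Fin w => ∑ r : Fin (w ^ 2),
      MvPolynomial.X (Sum.inl (j, r, a', b')) *
        MvPolynomial.X (Sum.inr (Sum.inl (j, r))) ^ p j :
          Matrix (Fin w) (Fin w) (MvPolynomial (Par k w (w ^ 2)) ℂ))) =
      fun j => ∑ e ∈ (supp B u v s).image (fun e => e j),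
        ((Polynomial.X : Polynomial ℂ) * Polynomial.C ((2 : ℂ) ^ p j)) ^ e •
          ((B j).map (fun q => q.coeff e)).map (algebraMap ℂ (Polynomial ℂ)) := by
      funext j
      ext1 a' b'
      rw [Function.comp_apply, RingHom.mapMatrix_apply, Matrix.map_apply, Matrix.of_apply,
        Matrix.sum_apply, map_sum]
      rw [← hρ j (Polynomial ℂ) (fun e => (((Polynomial.X : Polynomial ℂ) *
        Polynomial.C ((2 : ℂ) ^ p j)) ^ e •
          ((B j).map (fun q => q.coeff e)).map (algebraMap ℂ (Polynomial ℂ))) a' b')]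
      refine sum_congr rfl fun r _ => ?_
      have h7 : (MvPolynomial.aeval (evm B u v ρ) :
          MvPolynomial (Par k w (w ^ 2)) ℂ →ₐ[ℂ] Polynomial ℂ).toRingHom
          (MvPolynomial.X (Sum.inl (j, r, a', b')) *
            MvPolynomial.X (Sum.inr (Sum.inl (j, r))) ^ p j) =
          evm B u v ρ (Sum.inl (j, r, a', b')) * evm B u v ρ (Sum.inr (Sum.inl (j, r))) ^ p j := by
        rw [map_mul, map_pow]
        simp
      rw [h7]
      show ((ρ j r).elim 0 (fun e => Polynomial.C ((B j a' b').coeff e) * Polynomial.X ^ e)) *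
        ((ρ j r).elim 0 (fun e => Polynomial.C ((2 : ℂ) ^ e))) ^ p j = _
      cases ρ j r with
      | none => simp
      | some e =>
        simp only [Option.elim_some, Matrix.smul_apply, Matrix.map_apply, smul_eq_mul]
        have h8 : (Polynomial.C ((2 : ℂ) ^ e)) ^ p j = (Polynomial.C ((2 : ℂ) ^ p j)) ^ e := by
          rw [← Polynomial.C_pow, ← Polynomial.C_pow, ← pow_mul, ← pow_mul, mul_comm]
        rw [h8, Polynomial.algebraMap_eq]
        ring
    rw [h6]
  rw [h3]
  rfl

end Pool.Agent.V8H37.Roabp
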