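import Pool.Agent.V8H37.Roabp.Hit

set_option autoImplicit false

namespace Pool.Agent.V8H37.Roabp

open Finset

/-- ordered product of the first `n` terms -/
def lp {R : Type} [Monoid R] (M : ℕ → R) (n : ℕ) : R := ((List.range n).map M).prod

theorem lp_add {R : Type} [Monoid R] (M : ℕ → R) (a b : ℕ) :
    lp M (a + b) = lp M a * lp (fun i => M (a + i)) b := by
  unfold lp
  rw [List.range_add, List.map_append, List.prod_append, List.map_map]
  rfl

theorem lp_congr {R : Type} [Monoid R] (M M' : ℕ → R) (n : ℕ) (h : ∀ i < n, M i = M' i) :
    lp M n = lp M' n := by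
  unfold lp
  congr 1
  apply List.map_congr_left
  intro i hi
  exact h i (List.mem_range.1 hi)

theorem lp_mul {R : Type} [Monoid R] (M : ℕ → R) (q k : ℕ) :
    lp M (q * k) = lp (fun i => lp (fun j => M (i * k + j)) k) q := by
  induction q with
  | zero => simp [lp]
  | succ q ih =>
    rw [Nat.succ_mul, lp_add, ih]
    have : lp (fun i => lp (fun j => M (i * k + j)) k) (q + 1) =
        lp (fun i => lp (fun j => M (i * k + j)) k) q * lp (fun j => M (q * k + j)) k := by
      rw [lp_add]
      congr 1
      simp [lp]
    rw [this]

theorem ofFn_eq_range {α : Type} (k : ℕ) (f : ℕ → α) :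
    List.ofFn (fun j : Fin k => f j) = (List.range k).map f := by
  apply List.ext_getElem
  · simp
  · intro i h1 h2
    simp

/-- value of the program `A` with boundary vectors `u`, `v` at `x` -/
noncomputable def val {w : ℕ} (A : ℕ → Matrix (Fin w) (Fin w) (Polynomial ℂ))
    (u v : Fin w → ℂ) (n : ℕ) (x : ℕ → ℂ) : ℂ :=
  ∑ a, ∑ b, u a * lp (fun i => (A i).map (Polynomial.eval (x i))) n a b * v b

theorem ev_eq_val {k w : ℕ} (A : ℕ → Matrix (Fin w) (Fin w) (Polynomial ℂ))
    (u v : Fin w → ℂ) (x : ℕ → ℂ) :
    ev (fun j : Fin k => A j) u v (fun j => x j) = val A u v k x := by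
  unfold ev val lp
  rw [← ofFn_eq_range k (fun i => (A i).map (Polynomial.eval (x i)))]
  rfl

/-- absorbing matrices in the boundary vectors -/
theorem absorb {w : ℕ} (u v : Fin w → ℂ) (L P R : Matrix (Fin w) (Fin w) ℂ) :
    ∑ a, ∑ b, u a * (L * P * R) a b * v b =
      ∑ a, ∑ b, (∑ c, u c * L c a) * P a b * (∑ c, R b c * v c) := by
  have h1 : ∑ a, ∑ b, u a * (L * P * R) a b * v b = dotProduct u ((L * P * R).mulVec v) := by
    simp only [dotProduct, Matrix.mulVec, mul_sum, mul_assoc]
  have h2 : ∑ a, ∑ b, (∑ c, u c * L c a) * P a b * (∑ c, R b c * v c) =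
      dotProduct (Matrix.vecMul u L) (P.mulVec (R.mulVec v)) := by
    simp only [dotProduct, Matrix.mulVec, Matrix.vecMul]
    refine sum_congr rfl fun a _ => ?_
    rw [mul_sum]
    refine sum_congr rfl fun b _ => ?_
    ring
  rw [h1, h2, ← Matrix.mulVec_mulVec, ← Matrix.mulVec_mulVec, Matrix.dotProduct_mulVec]

/-- column of a table -/
def col {m : ℕ} (T : Fin m → ℕ → ℕ) (j : ℕ) : Fin m → ℕ := fun i => T i j

/-- one level: all blocks of `k` variables are merged -/
theorem merge {k w m : ℕ} (hk : 0 < k) (T : Fin m → ℕ → ℕ)
    (hT : Good w (fun (i : Fin m) (j : Fin k) => T i j))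
    (A : ℕ → Matrix (Fin w) (Fin w) (Polynomial ℂ)) (u v : Fin w → ℂ) (q : ℕ) (x : ℕ → ℂ)
    (hx : val A u v (q * k) x ≠ 0) :
    ∃ y : ℕ → ℂ, val A u v (q * k) (fun i => cval m (col T (i % k)) (y (i / k))) ≠ 0 := by
  classical
  have main : ∀ r ≤ q, ∃ (x' y : ℕ → ℂ),
      (∀ i < r * k, x' i = cval m (col T (i % k)) (y (i / k))) ∧ val A u v (q * k) x' ≠ 0 := by
    intro r
    induction r with
    | zero => exact fun _ => ⟨x, fun _ => 0, fun i hi => by omega, hx⟩
    | succ r ih =>
      intro hr
      obtain ⟨x', y, h1, h2⟩ := ih (by omega)
      -- split the product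
      have hq : q * k = r * k + (k + (q - r - 1) * k) := by
        have : q = r + (1 + (q - r - 1)) := by omega
        conv_lhs => rw [this]
        ring
      have hsplit : ∀ z : ℕ → ℂ, val A u v (q * k) z =
          ∑ a, ∑ b, (∑ c, u c * lp (fun i => (A i).map (Polynomial.eval (z i))) (r * k) c a) *
            lp (fun i => (A (r * k + i)).map (Polynomial.eval (z (r * k + i)))) k a b *
            (∑ c, lp (fun i => (A (r * k + (k + i))).map
              (Polynomial.eval (z (r * k + (k + i))))) ((q - r - 1) * k) b c * v c) := by
        intro z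
        unfold val
        rw [hq, lp_add, lp_add, ← mul_assoc, absorb]
      have h3 := h2
      rw [hsplit x'] at h3
      -- the block
      have h4 := block_hit (k := k) (fun (i : Fin m) (j : Fin k) => T i j) hT
        (fun j : Fin k => A (r * k + j))
        (fun a => ∑ c, u c * lp (fun i => (A i).map (Polynomial.eval (x' i))) (r * k) c a)
        (fun b => ∑ c, lp (fun i => (A (r * k + (k + i))).map
              (Polynomial.eval (x' (r * k + (k + i))))) ((q - r - 1) * k) b c * v c)
        (fun j : Fin k => x' (r * k + j)) (by
          rw [ev_eq_val (k := k) (fun j => A (r * k + j)) _ _ (fun j => x' (r * k + j))]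
          exact h3)
      obtain ⟨t, ht⟩ := h4
      have ht' := ht
      have hev := ev_eq_val (k := k) (fun j => A (r * k + j))
        (fun a => ∑ c, u c * lp (fun i => (A i).map (Polynomial.eval (x' i))) (r * k) c a)
        (fun b => ∑ c, lp (fun i => (A (r * k + (k + i))).map
              (Polynomial.eval (x' (r * k + (k + i))))) ((q - r - 1) * k) b c * v c)
        (fun j => cval m (col T j) t)
      replace ht : val (fun j => A (r * k + j))
        (fun a => ∑ c, u c * lp (fun i => (A i).map (Polynomial.eval (x' i))) (r * k) c a)
        (fun b => ∑ c, lp (fun i => (A (r * k + (k + i))).map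
              (Polynomial.eval (x' (r * k + (k + i))))) ((q - r - 1) * k) b c * v c) k
        (fun j => cval m (col T j) t) ≠ 0 := by
        rw [← hev]
        exact ht'
      refine ⟨fun i => if i < r * k then x' i else if i < r * k + k then
        cval m (col T (i % k)) t else x' i, fun i => if i = r then t else y i, ?_, ?_⟩
      · intro i hi
        by_cases hlt : i < r * k
        · have hne : i / k ≠ r := by
            have := Nat.div_lt_of_lt_mul (by rw [mul_comm]; exact hlt : i < k * r)
            omega
          simp only [if_pos hlt, if_neg hne]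
          exact h1 i hlt
        · have hlt2 : i < r * k + k := by rw [Nat.succ_mul] at hi; exact hi
          have hdiv : i / k = r := by
            apply Nat.div_eq_of_lt_le
            · omega
            · rw [Nat.succ_mul]; exact hlt2
          simp only [if_neg hlt, if_pos hlt2, if_pos hdiv]
      · rw [hsplit]
        have e1 : lp (fun i => (A i).map (Polynomial.eval (if i < r * k then x' i
            else if i < r * k + k then cval m (col T (i % k)) t else x' i))) (r * k) =
            lp (fun i => (A i).map (Polynomial.eval (x' i))) (r * k) := by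
          apply lp_congr
          intro i hi
          rw [if_pos hi]
        have e2 : lp (fun i => (A (r * k + i)).map (Polynomial.eval
            (if r * k + i < r * k then x' (r * k + i) else if r * k + i < r * k + k then
              cval m (col T ((r * k + i) % k)) t else x' (r * k + i)))) k =
            lp (fun i => (A (r * k + i)).map (Polynomial.eval (cval m (col T i) t))) k := by
          apply lp_congr
          intro i hi
          rw [if_neg (by omega), if_pos (by omega)]
          have : (r * k + i) % k = i := by
            rw [mul_comm, Nat.mul_add_mod, Nat.mod_eq_of_lt hi]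
          rw [this]
        have e3 : lp (fun i => (A (r * k + (k + i))).map (Polynomial.eval
            (if r * k + (k + i) < r * k then x' (r * k + (k + i)) else
              if r * k + (k + i) < r * k + k then
                cval m (col T ((r * k + (k + i)) % k)) t else x' (r * k + (k + i)))))
              ((q - r - 1) * k) =
            lp (fun i => (A (r * k + (k + i))).map (Polynomial.eval (x' (r * k + (k + i)))))
              ((q - r - 1) * k) := by
          apply lp_congr
          intro i hi
          rw [if_neg (by omega), if_neg (by omega)]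
        rw [e1, e2, e3]
        exact ht
  obtain ⟨x', y, h1, h2⟩ := main q le_rfl
  refine ⟨y, ?_⟩
  have : val A u v (q * k) (fun i => cval m (col T (i % k)) (y (i / k))) =
      val A u v (q * k) x' := by
    unfold val
    rw [lp_congr (fun i => (A i).map (Polynomial.eval (cval m (col T (i % k)) (y (i / k)))))
      (fun i => (A i).map (Polynomial.eval (x' i))) (q * k) (fun i hi => by rw [h1 i hi])]
  rw [this]
  exact h2

/-- the recursive substitution -/
def gen {R : Type} [CommRing R] (k m : ℕ) (T : Fin m → ℕ → ℕ) : ℕ → ℕ → R → R
  | 0, _, t => t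
  | L + 1, i, t => cval m (col T (i % k)) (gen k m T L (i / k) t)

theorem map_gen {R S : Type} [CommRing R] [CommRing S] (f : R →+* S) (k m : ℕ)
    (T : Fin m → ℕ → ℕ) (L i : ℕ) (t : R) : f (gen k m T L i t) = gen k m T L i (f t) := by
  induction L generalizing i with
  | zero => rfl
  | succ L ih =>
    show f (cval m (col T (i % k)) (gen k m T L (i / k) t)) =
      cval m (col T (i % k)) (gen k m T L (i / k) (f t))
    rw [map_cval, ih]

theorem gen_hit {k w m : ℕ} (hk : 0 < k) (T : Fin m → ℕ → ℕ)
    (hT : Good w (fun (i : Fin m) (j : Fin k) => T i j)) (L : ℕ)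
    (A : ℕ → Matrix (Fin w) (Fin w) (Polynomial ℂ)) (u v : Fin w → ℂ) (x : ℕ → ℂ)
    (hx : val A u v (k ^ L) x ≠ 0) :
    ∃ t : ℂ, val A u v (k ^ L) (fun i => gen k m T L i t) ≠ 0 := by
  induction L generalizing A x with
  | zero =>
    refine ⟨x 0, ?_⟩
    have : val A u v (k ^ 0) (fun i => gen k m T 0 i (x 0)) = val A u v (k ^ 0) x := by
      unfold val
      rw [lp_congr (fun i => (A i).map (Polynomial.eval (gen k m T 0 i (x 0))))
        (fun i => (A i).map (Polynomial.eval (x i))) (k ^ 0) (fun i hi => by
          have : i = 0 := by simpa using hi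
          subst this; rfl)]
    rw [this]
    exact hx
  | succ L ih =>
    rw [pow_succ] at hx
    obtain ⟨y, hy⟩ := merge hk T hT A u v (k ^ L) x hx
    -- the merged program
    let A' : ℕ → Matrix (Fin w) (Fin w) (Polynomial ℂ) := fun q =>
      lp (fun j => (A (q * k + j)).map (fun P => P.comp (cval m (col T j) Polynomial.X))) k
    have hval : ∀ y : ℕ → ℂ, val A u v (k ^ L * k)
        (fun i => cval m (col T (i % k)) (y (i / k))) = val A' u v (k ^ L) y := by
      intro y
      unfold val
      rw [lp_mul]
      have : ∀ i < k ^ L, lp (fun j => (A (i * k + j)).map (Polynomial.eval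
          (cval m (col T ((i * k + j) % k)) (y ((i * k + j) / k))))) k =
          (A' i).map (Polynomial.eval (y i)) := by
        intro i _
        have h1 : (A' i).map (Polynomial.eval (y i)) =
            lp (fun j => ((A (i * k + j)).map
              (fun P => P.comp (cval m (col T j) Polynomial.X))).map
                (Polynomial.eval (y i))) k := by
          show ((Polynomial.evalRingHom (y i)).mapMatrix (m := Fin w)) (A' i) = _
          simp only [A', lp]
          rw [map_list_prod, List.map_map]
          rfl
        rw [h1]
        apply lp_congr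
        intro j hj
        ext a b
        rw [Matrix.map_apply, Matrix.map_apply, Matrix.map_apply, Polynomial.eval_comp]
        have h2 : (i * k + j) % k = j := by
          rw [mul_comm, Nat.mul_add_mod, Nat.mod_eq_of_lt hj]
        have h3 : (i * k + j) / k = i := by
          rw [mul_comm, Nat.mul_add_div hk, Nat.div_eq_of_lt hj, add_zero]
        have h4 : Polynomial.eval (y i) (cval m (col T j) Polynomial.X) =
            cval m (col T j) (y i) := by
          have := map_cval (Polynomial.evalRingHom (y i)) m (col T j) Polynomial.X
          simpa using this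
        rw [h2, h3, h4]
      rw [lp_congr _ _ _ this]
    rw [hval] at hy
    obtain ⟨t, ht⟩ := ih A' y hy
    refine ⟨t, ?_⟩
    rw [pow_succ]
    have := hval (fun i => gen k m T L i t)
    rw [← this] at ht
    exact ht

end Pool.Agent.V8H37.Roabp
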