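import Pool.Agent.V8H37.Roabp.Final2

set_option autoImplicit false

namespace Pool.Agent.V8H37.Roabp2

open Finset Pool.Agent.V8H37.Roabp

theorem abs_cval_le {m : ℕ} (hm : 1 ≤ m) (T : Fin m → ℕ) (S τ : ℕ) (hT : ∀ i, T i ≤ S)
    (hτ : m ≤ τ) (t : ℤ) (ht : |t| ≤ τ) :
    |cval m T t| ≤ ((2 : ℤ) ^ (S + 1) * τ) ^ (2 * m) := by
  have hτ1 : (1 : ℤ) ≤ (τ : ℤ) := by exact_mod_cast hm.trans hτ
  have hsub : ∀ i : Fin m, |t - ((i : ℕ) : ℤ)| ≤ 2 * τ := by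
    intro i
    have h1 : ((i : ℕ) : ℤ) ≤ τ := by exact_mod_cast (le_of_lt i.2).trans hτ
    have h2 : (0 : ℤ) ≤ ((i : ℕ) : ℤ) := Nat.cast_nonneg _
    rw [abs_le] at ht ⊢
    constructor <;> linarith [ht.1, ht.2]
  have h2τ : (1 : ℤ) ≤ 2 * τ := by linarith
  have hd : |dval m t| ≤ (2 * τ : ℤ) ^ m := by
    unfold dval
    rw [abs_prod]
    calc ∏ i : Fin m, |t - ((i : ℕ) : ℤ)| ≤ ∏ _i : Fin m, (2 * τ : ℤ) :=
          prod_le_prod (fun _ _ => abs_nonneg _) (fun i _ => hsub i)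
      _ = (2 * τ : ℤ) ^ m := by simp
  have hh : |hval m T t| ≤ 2 ^ S * (2 * τ : ℤ) ^ m := by
    unfold hval
    have h1 : ∀ i : Fin m, |2 ^ T i * ∏ l ∈ univ.erase i, (t - ((l : ℕ) : ℤ))| ≤
        2 ^ S * (2 * τ : ℤ) ^ (m - 1) := by
      intro i
      rw [abs_mul, abs_prod]
      have e1 : |(2 : ℤ) ^ T i| ≤ 2 ^ S := by
        rw [abs_of_nonneg (by positivity)]
        exact pow_le_pow_right₀ (by norm_num) (hT i)
      have e2 : ∏ l ∈ univ.erase i, |t - ((l : ℕ) : ℤ)| ≤ (2 * τ : ℤ) ^ (m - 1) := by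
        calc ∏ l ∈ univ.erase i, |t - ((l : ℕ) : ℤ)| ≤ ∏ _l ∈ univ.erase i, (2 * τ : ℤ) :=
              prod_le_prod (fun _ _ => abs_nonneg _) (fun i _ => hsub i)
          _ = (2 * τ : ℤ) ^ (m - 1) := by
              rw [prod_const, card_erase_of_mem (mem_univ i), card_univ, Fintype.card_fin]
      exact mul_le_mul e1 e2 (prod_nonneg fun _ _ => abs_nonneg _) (by positivity)
    calc |∑ i : Fin m, 2 ^ T i * ∏ l ∈ univ.erase i, (t - ((l : ℕ) : ℤ))|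
        ≤ ∑ i : Fin m, |2 ^ T i * ∏ l ∈ univ.erase i, (t - ((l : ℕ) : ℤ))| :=
          abs_sum_le_sum_abs _ _
      _ ≤ ∑ _i : Fin m, 2 ^ S * (2 * τ : ℤ) ^ (m - 1) := sum_le_sum fun i _ => h1 i
      _ = m * (2 ^ S * (2 * τ : ℤ) ^ (m - 1)) := by simp
      _ ≤ (2 * τ) * (2 ^ S * (2 * τ : ℤ) ^ (m - 1)) := by
          apply mul_le_mul_of_nonneg_right _ (by positivity)
          have : (m : ℤ) ≤ τ := by exact_mod_cast hτ
          linarith
      _ = 2 ^ S * (2 * τ : ℤ) ^ m := by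
          obtain ⟨m', rfl⟩ := Nat.exists_eq_add_of_le' hm
          rw [Nat.add_sub_cancel, pow_succ]
          ring
  unfold cval
  rw [abs_mul]
  calc |dval m t| * |hval m T t| ≤ (2 * τ : ℤ) ^ m * (2 ^ S * (2 * τ : ℤ) ^ m) :=
        mul_le_mul hd hh (abs_nonneg _) (by positivity)
    _ = 2 ^ S * (2 * τ : ℤ) ^ (2 * m) := by ring
    _ ≤ (2 ^ S) ^ (2 * m) * (2 * τ : ℤ) ^ (2 * m) := by
        apply mul_le_mul_of_nonneg_right _ (by positivity)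
        exact le_self_pow₀ (one_le_pow₀ (by norm_num)) (by omega)
    _ = ((2 : ℤ) ^ (S + 1) * τ) ^ (2 * m) := by
        rw [← mul_pow]; congr 1; ring

theorem abs_gen_le {k m : ℕ} (hm : 1 ≤ m) (T : Fin m → ℕ → ℕ) (S τ : ℕ) (hT : ∀ i j, T i j ≤ S)
    (hτ : m ≤ τ) (t : ℤ) (ht : |t| ≤ τ) (L i : ℕ) :
    |gen k m T L i t| ≤ ((2 : ℤ) ^ (S + 1) * τ) ^ ((4 * m) ^ L) := by
  have hτ1 : 1 ≤ τ := hm.trans hτ
  have h2 : 1 ≤ 2 ^ (S + 1) * τ := Nat.one_le_iff_ne_zero.2 (by positivity)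
  induction L generalizing i with
  | zero =>
    show |t| ≤ _
    rw [pow_zero, pow_one]
    refine ht.trans ?_
    have : (1 : ℤ) ≤ 2 ^ (S + 1) := one_le_pow₀ (by norm_num)
    have h0 : (0 : ℤ) ≤ τ := Nat.cast_nonneg _
    nlinarith
  | succ L ih =>
    show |cval m (col T (i % k)) (gen k m T L (i / k) t)| ≤ _
    set Q : ℕ := (2 ^ (S + 1) * τ) ^ ((4 * m) ^ L) with hQ
    have hpos : (4 * m) ^ L ≠ 0 := by positivity
    have hQ1 : 2 ^ (S + 1) * τ ≤ Q := by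
      rw [hQ]; exact Nat.le_self_pow hpos _
    have hQ2 : 2 ^ (S + 1) ≤ Q := le_trans (Nat.le_mul_of_pos_right _ (by omega)) hQ1
    have hQ3 : m ≤ Q := le_trans (le_trans hτ (Nat.le_mul_of_pos_left _ (by positivity))) hQ1
    have hi : |gen k m T L (i / k) t| ≤ (Q : ℤ) := by
      have := ih (i / k)
      rw [hQ]; push_cast; exact this
    have h := abs_cval_le hm (col T (i % k)) S Q (fun i' => hT i' _) hQ3 _ hi
    refine h.trans ?_
    have h3 : (2 ^ (S + 1) * Q) ^ (2 * m) ≤ (2 ^ (S + 1) * τ) ^ ((4 * m) ^ (L + 1)) := by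
      calc (2 ^ (S + 1) * Q) ^ (2 * m) ≤ (Q * Q) ^ (2 * m) :=
            Nat.pow_le_pow_left (Nat.mul_le_mul_right _ hQ2) _
        _ = Q ^ (4 * m) := by rw [← pow_two, ← pow_mul]; congr 1; ring
        _ = (2 ^ (S + 1) * τ) ^ ((4 * m) ^ (L + 1)) := by
            rw [hQ, ← pow_mul, pow_succ (4 * m) L]
    exact_mod_cast h3

theorem pts_pos (k w : ℕ) : 1 ≤ pts k w := by
  unfold pts; omega

theorem hittingSet_size (n w k d : ℕ) (a : Fin n → ℤ) (ha : a ∈ hittingSet n w k d) (i : Fin n) :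
    |a i| ≤ ((2 : ℤ) ^ (side k w + 1) * ((d * (2 * pts k w) ^ Nat.clog k n + pts k w : ℕ) : ℤ)) ^
      ((4 * pts k w) ^ Nat.clog k n) := by
  unfold hittingSet at ha
  obtain ⟨⟨T, t⟩, hp, rfl⟩ := mem_image.1 ha
  have ht := mem_range.1 (mem_product.1 hp).2
  show |values k (tab T) (Nat.clog k n) i (t : ℤ)| ≤ _
  rw [values_eq]
  apply abs_gen_le (pts_pos k w) (tab T) (side k w)
    (d * (2 * pts k w) ^ Nat.clog k n + pts k w)
  · intro i' j
    unfold tab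
    split_ifs with h
    · exact le_of_lt (T i' ⟨j, h⟩).2
    · exact Nat.zero_le _
  · omega
  · rw [abs_of_nonneg (Nat.cast_nonneg _)]
    have : t ≤ d * (2 * pts k w) ^ Nat.clog k n + pts k w := by
      simp only at ht
      omega
    exact_mod_cast this

end Pool.Agent.V8H37.Roabp2
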